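import Mathlib
import Pool.Agent.Helper75.IP.Defs

/-!
# Rigid sequences: the normalised characters tend weakly to zero
-/

set_option autoImplicit false
open MeasureTheory Filter Topology ProbabilityTheory Helper35.AG
open scoped ENNReal InnerProductSpace

namespace Helper97.IP

/-- abstract form: `V F_k = 2 F_k + R_k`, `R_k → 0` weakly, `V` a contraction, `F_k` bounded -/
theorem weak_null {H : Type*} [NormedAddCommGroup H] [InnerProductSpace ℂ H] [CompleteSpace H]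
    (V : H →L[ℂ] H) (hV : ‖V‖ ≤ 1) {F R : ℕ → H} (hF : ∀ k, ‖F k‖ ≤ 1)
    (hVF : ∀ k, V (F k) = (2 : ℂ) • F k + R k)
    (hR : ∀ φ : H, Tendsto (fun k => ⟪φ, R k⟫_ℂ) atTop (𝓝 0)) (φ : H) :
    Tendsto (fun k => ⟪φ, F k⟫_ℂ) atTop (𝓝 0) := by
  have key : ∀ (j : ℕ) (φ : H) (ε : ℝ), 0 < ε → ∀ᶠ k in atTop,
      ‖⟪φ, F k⟫_ℂ‖ ≤ ‖φ‖ / 2 ^ j + ε := by
    intro j
    induction j with
    | zero =>
        intro φ ε hε
        refine Eventually.of_forall fun k => ?_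
        calc ‖⟪φ, F k⟫_ℂ‖ ≤ ‖φ‖ * ‖F k‖ := norm_inner_le_norm _ _
          _ ≤ ‖φ‖ * 1 := mul_le_mul_of_nonneg_left (hF k) (norm_nonneg _)
          _ ≤ ‖φ‖ / 2 ^ 0 + ε := by simp [hε.le]
    | succ j ih =>
        intro φ ε hε
        have h1 := ih (ContinuousLinearMap.adjoint V φ) ε hε
        have h2 : ∀ᶠ k in atTop, ‖⟪φ, R k⟫_ℂ‖ < ε := by
          have := (hR φ).norm
          rw [norm_zero] at this
          exact this.eventually (gt_mem_nhds hε)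
        filter_upwards [h1, h2] with k hk1 hk2
        have h3 : (2 : ℂ) * ⟪φ, F k⟫_ℂ = ⟪ContinuousLinearMap.adjoint V φ, F k⟫_ℂ - ⟪φ, R k⟫_ℂ := by
          rw [ContinuousLinearMap.adjoint_inner_left, hVF, inner_add_right, inner_smul_right]
          ring
        have h4 : 2 * ‖⟪φ, F k⟫_ℂ‖ ≤ ‖⟪ContinuousLinearMap.adjoint V φ, F k⟫_ℂ‖ + ‖⟪φ, R k⟫_ℂ‖ := by
          calc 2 * ‖⟪φ, F k⟫_ℂ‖ = ‖(2 : ℂ) * ⟪φ, F k⟫_ℂ‖ := by rw [norm_mul]; simp
            _ ≤ _ := by rw [h3]; exact norm_sub_le _ _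
        have h5 : ‖ContinuousLinearMap.adjoint V φ‖ ≤ ‖φ‖ := by
          calc ‖ContinuousLinearMap.adjoint V φ‖ ≤ ‖ContinuousLinearMap.adjoint V‖ * ‖φ‖ :=
                ContinuousLinearMap.le_opNorm _ _
            _ ≤ 1 * ‖φ‖ := by
                refine mul_le_mul_of_nonneg_right ?_ (norm_nonneg _)
                rw [LinearIsometryEquiv.norm_map]
                exact hV
            _ = ‖φ‖ := one_mul _
        have h6 : ‖ContinuousLinearMap.adjoint V φ‖ / 2 ^ j ≤ ‖φ‖ / 2 ^ j := by gcongr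
        have h7 : ‖φ‖ / 2 ^ (j + 1) = ‖φ‖ / 2 ^ j / 2 := by rw [pow_succ, div_mul_eq_div_div]
        rw [h7]
        linarith
  rw [Metric.tendsto_nhds]
  intro ε hε
  obtain ⟨j, hj⟩ : ∃ j : ℕ, ‖φ‖ / 2 ^ j < ε / 2 := by
    have h1 : Tendsto (fun j : ℕ => ‖φ‖ / 2 ^ j) atTop (𝓝 0) :=
      tendsto_const_nhds.div_atTop (tendsto_pow_atTop_atTop_of_one_lt one_lt_two)
    exact (h1.eventually (gt_mem_nhds (half_pos hε))).exists
  filter_upwards [key j φ (ε / 4) (by positivity)] with k hk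
  rw [dist_zero_right]
  linarith

/-- bounded in `L²` and small in `L¹` implies weakly null -/
theorem weak_of_L1 (μ : Measure Tor) [IsProbabilityMeasure μ] {R : ℕ → Lp ℂ 2 μ} {M : ℝ}
    (hM : ∀ k, ‖R k‖ ≤ M) (h1 : Tendsto (fun k => ∫ x, ‖R k x‖ ∂μ) atTop (𝓝 0))
    (φ : Lp ℂ 2 μ) : Tendsto (fun k => ⟪φ, R k⟫_ℂ) atTop (𝓝 0) := by
  have hM0 : 0 ≤ M := (norm_nonneg _).trans (hM 0)
  rw [Metric.tendsto_nhds]
  intro ε hε
  have hd := ContinuousMap.toLp_denseRange ℂ μ (p := 2) ℂ (by norm_num)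
  obtain ⟨f, hf⟩ := hd.exists_dist_lt φ (ε := ε / (2 * (M + 1))) (by positivity)
  have h2 : Tendsto (fun k => ⟪ContinuousMap.toLp (E := ℂ) 2 μ ℂ f, R k⟫_ℂ) atTop (𝓝 0) := by
    rw [tendsto_zero_iff_norm_tendsto_zero]
    have h3 : ∀ k, ‖⟪ContinuousMap.toLp (E := ℂ) 2 μ ℂ f, R k⟫_ℂ‖ ≤ ‖f‖ * ∫ x, ‖R k x‖ ∂μ := by
      intro k
      rw [L2.inner_def]
      have hi : Integrable (fun x => ‖R k x‖) μ :=
        ((Lp.memLp (R k)).integrable (by norm_num)).norm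
      calc ‖∫ x, ⟪ContinuousMap.toLp (E := ℂ) 2 μ ℂ f x, R k x⟫_ℂ ∂μ‖
          ≤ ∫ x, ‖⟪ContinuousMap.toLp (E := ℂ) 2 μ ℂ f x, R k x⟫_ℂ‖ ∂μ :=
            norm_integral_le_integral_norm _
        _ ≤ ∫ x, ‖f‖ * ‖R k x‖ ∂μ := by
            refine integral_mono_of_nonneg (Eventually.of_forall fun x => norm_nonneg _)
              (hi.const_mul _) ?_
            filter_upwards [ContinuousMap.coeFn_toLp (p := 2) (𝕜 := ℂ) μ f] with x hx
            rw [hx]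
            refine (norm_inner_le_norm _ _).trans ?_
            exact mul_le_mul_of_nonneg_right (f.norm_coe_le_norm x) (norm_nonneg _)
        _ = ‖f‖ * ∫ x, ‖R k x‖ ∂μ := integral_const_mul _ _
    refine squeeze_zero (fun k => norm_nonneg _) h3 ?_
    simpa using h1.const_mul ‖f‖
  have h3 : ∀ᶠ k in atTop, ‖⟪ContinuousMap.toLp (E := ℂ) 2 μ ℂ f, R k⟫_ℂ‖ < ε / 2 := by
    have := h2.norm
    rw [norm_zero] at this
    exact this.eventually (gt_mem_nhds (half_pos hε))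
  filter_upwards [h3] with k hk
  rw [dist_zero_right]
  have h4 : ⟪φ, R k⟫_ℂ = ⟪φ - ContinuousMap.toLp (E := ℂ) 2 μ ℂ f, R k⟫_ℂ
      + ⟪ContinuousMap.toLp (E := ℂ) 2 μ ℂ f, R k⟫_ℂ := by
    rw [inner_sub_left]
    ring
  rw [h4]
  have h5 : ‖⟪φ - ContinuousMap.toLp (E := ℂ) 2 μ ℂ f, R k⟫_ℂ‖ ≤ ε / 2 := by
    calc ‖⟪φ - ContinuousMap.toLp (E := ℂ) 2 μ ℂ f, R k⟫_ℂ‖
        ≤ ‖φ - ContinuousMap.toLp (E := ℂ) 2 μ ℂ f‖ * ‖R k‖ := norm_inner_le_norm _ _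
      _ ≤ ε / (2 * (M + 1)) * (M + 1) := by
          refine mul_le_mul ?_ ((hM k).trans (by linarith)) (norm_nonneg _) (by positivity)
          rw [← dist_eq_norm]
          exact hf.le
      _ = ε / 2 := by field_simp
  calc _ ≤ _ := norm_add_le _ _
    _ < ε := by linarith

end Helper97.IP
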