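import Mathlib
import Pool.Agent.Helper97.IP.Weak

/-!
# Rigid sequences: the normalised characters tend weakly to zero, concrete form
-/

set_option autoImplicit false
open MeasureTheory Filter Topology ProbabilityTheory Helper35.AG
open scoped ENNReal InnerProductSpace

namespace Helper97.IP

/-- `e(n x) - 1` -/
noncomputable def a (n : ℤ) (x : Tor) : ℂ := (fourier n x : ℂ) - 1

theorem a_add (n : ℤ) (x y : Tor) : a n (x + y) = a n x + a n y + a n x * a n y := by
  unfold a
  rw [fourier_apply, fourier_apply, fourier_apply, smul_add, AddCircle.toCircle_add,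
    Circle.coe_mul]
  ring

theorem a_two (n : ℤ) (x : Tor) : a n ((2 : ℕ) • x) = 2 * a n x + a n x ^ 2 := by
  rw [two_nsmul, a_add]
  ring

theorem a_zero (n : ℤ) : a n 0 = 0 := by
  unfold a
  simp

theorem measurable_a (n : ℤ) : Measurable (a n) :=
  ((fourier n).continuous.measurable).sub_const 1

theorem norm_a_le (n : ℤ) (x : Tor) : ‖a n x‖ ≤ 2 := by
  unfold a
  calc _ ≤ ‖(fourier n x : ℂ)‖ + ‖(1 : ℂ)‖ := norm_sub_le _ _
    _ = 2 := by
      rw [fourier_apply, Circle.norm_coe, norm_one]
      norm_num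

theorem memLp_a (μ : Measure Tor) [IsProbabilityMeasure μ] (n : ℤ) (p : ℝ≥0∞) :
    MemLp (a n) p μ :=
  MemLp.of_bound (measurable_a n).aestronglyMeasurable 2 (Eventually.of_forall (norm_a_le n))

/-- the `L²` norm of a class -/
theorem norm_sq_toLp {μ : Measure Tor} {f : Tor → ℂ} (hf : MemLp f 2 μ) :
    ‖hf.toLp f‖ ^ 2 = ∫ x, ‖f x‖ ^ 2 ∂μ := by
  rw [← inner_self_eq_norm_sq (𝕜 := ℂ) (hf.toLp f), L2.inner_def]
  have h1 : ∫ x, ⟪hf.toLp f x, hf.toLp f x⟫_ℂ ∂μ = ∫ x, (((‖f x‖ ^ 2 : ℝ)) : ℂ) ∂μ := by
    refine integral_congr_ae ?_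
    filter_upwards [hf.coeFn_toLp] with x hx
    rw [hx, inner_self_eq_norm_sq_to_K]
    push_cast
    rfl
  rw [h1]
  exact (congrArg RCLike.re (integral_ofReal (𝕜 := ℂ) (μ := μ) (f := fun x => ‖f x‖ ^ 2))).trans
    (RCLike.ofReal_re _)

/-- no atoms: the characters are not trivial -/
theorem E_pos {μ : Measure Tor} [IsProbabilityMeasure μ] (hat : ∀ x, μ {x} = 0) {n : ℤ}
    (hn : n ≠ 0) : 0 < ∫ x, ‖a n x‖ ^ 2 ∂μ := by
  rw [integral_pos_iff_support_of_nonneg (fun x => by positivity)]
  · have h1 : (Function.support fun x => ‖a n x‖ ^ 2) = {x : Tor | n • x = 0}ᶜ := by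
      ext x
      simp only [Function.mem_support, ne_eq, OfNat.ofNat_ne_zero, not_false_eq_true,
        pow_eq_zero_iff, norm_eq_zero, Set.mem_compl_iff, Set.mem_setOf_eq]
      unfold a
      rw [sub_eq_zero, not_iff_not, fourier_apply]
      constructor
      · intro h
        have h2 : AddCircle.toCircle (n • x) = AddCircle.toCircle (0 : AddCircle (1 : ℝ)) := by
          rw [AddCircle.toCircle_zero]
          exact Circle.ext (by rw [Circle.coe_one]; exact h)
        exact AddCircle.injective_toCircle one_ne_zero h2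
      · intro h
        rw [h, AddCircle.toCircle_zero]
        rfl
    rw [h1]
    have hfin : {x : Tor | n • x = 0}.Finite := by
      have : {x : Tor | n • x = 0} ⊆ {x : Tor | n.natAbs • x = 0} := by
        intro x hx
        simp only [Set.mem_setOf_eq] at hx ⊢
        rcases Int.natAbs_eq n with h | h
        · rw [h, natCast_zsmul] at hx
          exact hx
        · rw [h, neg_smul, natCast_zsmul, neg_eq_zero] at hx
          exact hx
      refine Set.Finite.subset ?_ this
      have h3 : {x : Tor | n.natAbs • x = 0} = {x : Tor | addOrderOf x ∣ n.natAbs} := by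
        ext x
        simp only [Set.mem_setOf_eq]
        exact addOrderOf_dvd_iff_nsmul_eq_zero.symm
      rw [h3]
      have h4 : {x : Tor | addOrderOf x ∣ n.natAbs}
          ⊆ ⋃ d ∈ n.natAbs.divisors, {x : Tor | addOrderOf x = d} := by
        intro x hx
        simp only [Set.mem_iUnion, Set.mem_setOf_eq, exists_prop]
        exact ⟨addOrderOf x, Nat.mem_divisors.2 ⟨hx, Int.natAbs_ne_zero.2 hn⟩, rfl⟩
      refine Set.Finite.subset ?_ h4
      refine Set.Finite.biUnion (Finset.finite_toSet _) fun d hd => ?_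
      have hd0 : 0 < d := Nat.pos_of_mem_divisors hd
      exact AddCircle.finite_setOf_addOrderOf_eq 1 hd0
    have h5 : μ {x : Tor | n • x = 0} = 0 := by
      have := hfin.countable
      rw [← Set.biUnion_of_singleton {x : Tor | n • x = 0}]
      exact (measure_biUnion_null_iff this).2 fun x _ => hat x
    rw [measure_compl hfin.measurableSet (by simp), h5]
    simp
  · have := (memLp_a μ n 2).integrable_norm_pow (p := 2) (by norm_num)
    exact this

end Helper97.IP
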