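import Mathlib
import Pool.Agent.Helper97.IP.WeakChar

/-!
# Rigid sequences: one step of the energy argument
-/

set_option autoImplicit false
open MeasureTheory Filter Topology ProbabilityTheory Helper35.AG
open scoped ENNReal InnerProductSpace

namespace Helper97.IP

/-- bounded density, any space -/
theorem exists_density {Ω : Type*} [MeasurableSpace Ω] {ρ lam : Measure Ω}
    [IsProbabilityMeasure ρ] [IsProbabilityMeasure lam]
    {c : ℝ≥0∞} (hc : c ≠ ⊤) (hle : lam ≤ c • ρ) :
    ∃ (C : ℝ) (g : Ω → ℝ), 1 ≤ C ∧ Measurable g ∧ (∀ x, 0 ≤ g x) ∧ (∀ x, g x ≤ C) ∧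
      lam = ρ.withDensity (fun x => ENNReal.ofReal (g x)) := by
  have hac : lam ≪ ρ :=
    (Measure.absolutelyContinuous_of_le hle).trans Measure.smul_absolutelyContinuous
  haveI : lam.HaveLebesgueDecomposition ρ :=
    Measure.haveLebesgueDecomposition_of_sigmaFinite lam ρ
  have hwd : ρ.withDensity (lam.rnDeriv ρ) = lam := Measure.withDensity_rnDeriv_eq _ _ hac
  have hle' : ∀ᵐ x ∂ρ, lam.rnDeriv ρ x ≤ c := by
    refine ae_le_of_forall_setLIntegral_le_of_sigmaFinite (Measure.measurable_rnDeriv _ _)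
      fun s hs _ => ?_
    rw [← withDensity_apply _ hs, hwd, setLIntegral_const]
    exact hle s
  refine ⟨max 1 c.toReal, fun x => min (lam.rnDeriv ρ x).toReal (max 1 c.toReal),
    le_max_left _ _, ?_, fun x => le_min ENNReal.toReal_nonneg
      (zero_le_one.trans (le_max_left _ _)), fun x => min_le_right _ _, ?_⟩
  · exact (Measure.measurable_rnDeriv _ _).ennreal_toReal.min measurable_const
  · conv_lhs => rw [← hwd]
    refine withDensity_congr_ae ?_
    filter_upwards [hle'] with x hx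
    have h1 : (lam.rnDeriv ρ x).toReal ≤ max 1 c.toReal :=
      (ENNReal.toReal_mono hc hx).trans (le_max_right _ _)
    rw [min_eq_left h1, ENNReal.ofReal_toReal (ne_top_of_le_ne_top hc hx)]

/-- Cauchy and Schwarz for bounded functions -/
theorem cs {Ω : Type*} [MeasurableSpace Ω] {μ : Measure Ω} [IsFiniteMeasure μ] {f g : Ω → ℝ}
    {A : ℝ} (hf : Measurable f) (hg : Measurable g) (hf0 : ∀ x, 0 ≤ f x) (hg0 : ∀ x, 0 ≤ g x)
    (hfA : ∀ x, f x ≤ A) (hgA : ∀ x, g x ≤ A) :
    ∫ x, f x * g x ∂μ ≤ √(∫ x, f x ^ 2 ∂μ) * √(∫ x, g x ^ 2 ∂μ) := by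
  have hf2 : MemLp f 2 μ := MemLp.of_bound hf.aestronglyMeasurable A
    (Eventually.of_forall fun x => by rw [Real.norm_eq_abs, abs_of_nonneg (hf0 x)]; exact hfA x)
  have hg2 : MemLp g 2 μ := MemLp.of_bound hg.aestronglyMeasurable A
    (Eventually.of_forall fun x => by rw [Real.norm_eq_abs, abs_of_nonneg (hg0 x)]; exact hgA x)
  have h := integral_mul_le_Lp_mul_Lq_of_nonneg (μ := μ) (p := 2) (q := 2)
    (by constructor <;> norm_num) (Eventually.of_forall hf0) (Eventually.of_forall hg0)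
    (by rw [show ENNReal.ofReal 2 = 2 by norm_num]; exact hf2)
    (by rw [show ENNReal.ofReal 2 = 2 by norm_num]; exact hg2)
  rw [← Real.sqrt_eq_rpow, ← Real.sqrt_eq_rpow] at h
  simpa using h

/-- the mean of `|a|` -/
theorem mean_le (μ : Measure Tor) [IsProbabilityMeasure μ] (n : ℤ) :
    ∫ x, ‖a n x‖ ∂μ ≤ √(∫ x, ‖a n x‖ ^ 2 ∂μ) := by
  have h := cs (μ := μ) (f := fun x => ‖a n x‖) (g := fun _ => (1 : ℝ)) (A := 2)
    (measurable_a n).norm measurable_const (fun _ => norm_nonneg _) (fun _ => zero_le_one)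
    (norm_a_le n) (fun _ => by norm_num)
  simpa using h

section

variable {μ α : Measure Tor} [IsProbabilityMeasure μ] [IsProbabilityMeasure α]

theorem integrable_of_bound {Ω E : Type*} [MeasurableSpace Ω] [NormedAddCommGroup E]
    [MeasurableSpace E] [BorelSpace E] [SecondCountableTopology E] {ν : Measure Ω}
    [IsFiniteMeasure ν] {f : Ω → E} {A : ℝ} (hf : Measurable f)
    (hA : ∀ x, ‖f x‖ ≤ A) : Integrable f ν :=
  Integrable.of_bound hf.aestronglyMeasurable A (Eventually.of_forall hA)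

/-- products against a bounded density -/
theorem bound_prod {G : Tor × Tor → ℝ} {C : ℝ} (hG : Measurable G) (hG0 : ∀ p, 0 ≤ G p)
    (hGC : ∀ p, G p ≤ C) {f g : Tor → ℝ} {A : ℝ} (hf : Measurable f) (hg : Measurable g)
    (hf0 : ∀ x, 0 ≤ f x) (hg0 : ∀ x, 0 ≤ g x) (hfA : ∀ x, f x ≤ A) (hgA : ∀ x, g x ≤ A) :
    ∫ p, G p * (f p.1 * g p.2) ∂(μ.prod α) ≤ C * ((∫ x, f x ∂μ) * ∫ x, g x ∂α) := by
  have hA : 0 ≤ A := (hf0 0).trans (hfA 0)
  have hfg : Measurable fun p : Tor × Tor => f p.1 * g p.2 :=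
    (hf.comp measurable_fst).mul (hg.comp measurable_snd)
  have hb : ∀ p : Tor × Tor, ‖f p.1 * g p.2‖ ≤ A * A := fun p => by
    rw [Real.norm_eq_abs, abs_of_nonneg (mul_nonneg (hf0 _) (hg0 _))]
    exact mul_le_mul (hfA _) (hgA _) (hg0 _) hA
  calc ∫ p, G p * (f p.1 * g p.2) ∂(μ.prod α)
      ≤ ∫ p, C * (f p.1 * g p.2) ∂(μ.prod α) := by
        refine integral_mono_of_nonneg
          (Eventually.of_forall fun p => mul_nonneg (hG0 p) (mul_nonneg (hf0 _) (hg0 _)))
          ((integrable_of_bound hfg hb).const_mul _)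
          (Eventually.of_forall fun p => ?_)
        exact mul_le_mul_of_nonneg_right (hGC p) (mul_nonneg (hf0 _) (hg0 _))
    _ = C * ((∫ x, f x ∂μ) * ∫ x, g x ∂α) := by
        rw [integral_const_mul, integral_prod_mul]

/-- the cross term -/
theorem cross (h2 : MeasurePreserving (fun x : Tor => (2 : ℕ) • x) μ μ) {N : ℕ → ℤ}
    (hE : ∀ k, 0 < ∫ x, ‖a (N k) x‖ ^ 2 ∂μ)
    (h0 : Tendsto (fun k => ∫ x, ‖a (N k) x‖ ^ 2 ∂μ) atTop (𝓝 0))
    {L : ℝ} (hL : Tendsto (fun k => (∫ x, ‖a (N k) x‖ ^ 2 ∂α) / ∫ x, ‖a (N k) x‖ ^ 2 ∂μ)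
      atTop (𝓝 L))
    {G : Tor × Tor → ℝ} {C : ℝ} (hG : Measurable G) (hG0 : ∀ p, 0 ≤ G p)
    (hGC : ∀ p, G p ≤ C) :
    Tendsto (fun k => ‖∫ p, (G p : ℂ) * (a (N k) p.1 * star (a (N k) p.2)) ∂(μ.prod α)‖ /
      ∫ x, ‖a (N k) x‖ ^ 2 ∂μ) atTop (𝓝 0) := by
  have hC : 0 ≤ C := (hG0 0).trans (hGC 0)
  set E : ℕ → ℝ := fun k => ∫ x, ‖a (N k) x‖ ^ 2 ∂μ with hEdef
  set D : ℕ → ℝ := fun k => ∫ x, ‖a (N k) x‖ ^ 2 ∂α with hDdef
  set H : ℕ → Tor → ℂ := fun k v => ∫ x, a (N k) x * (G (x, v) : ℂ) ∂μ with hHdef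
  have hGc : Measurable fun p : Tor × Tor => (G p : ℂ) := Complex.measurable_ofReal.comp hG
  have hHm : ∀ k, Measurable (H k) := by
    intro k
    have h1 : StronglyMeasurable (Function.uncurry fun (v x : Tor) => a (N k) x * (G (x, v) : ℂ)) := by
      refine Measurable.stronglyMeasurable ?_
      exact ((measurable_a (N k)).comp measurable_snd).mul (hGc.comp measurable_swap)
    exact h1.integral_prod_right.measurable
  have hHle : ∀ k v, ‖H k v‖ ≤ C * √(E k) := by
    intro k v
    calc ‖H k v‖ ≤ ∫ x, ‖a (N k) x * (G (x, v) : ℂ)‖ ∂μ := norm_integral_le_integral_norm _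
      _ ≤ ∫ x, C * ‖a (N k) x‖ ∂μ := by
          refine integral_mono_of_nonneg (Eventually.of_forall fun x => norm_nonneg _)
            ((integrable_of_bound (measurable_a (N k)).norm (A := 2) fun x => by
              rw [norm_norm]; exact norm_a_le _ _).const_mul _)
            (Eventually.of_forall fun x => ?_)
          simp only [norm_mul, Complex.norm_real, Real.norm_eq_abs, abs_of_nonneg (hG0 (x, v))]
          rw [mul_comm]
          exact mul_le_mul_of_nonneg_right (hGC _) (norm_nonneg _)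
      _ = C * ∫ x, ‖a (N k) x‖ ∂μ := integral_const_mul _ _
      _ ≤ C * √(E k) := mul_le_mul_of_nonneg_left (mean_le μ (N k)) hC
  have hHle' : ∀ k v, ‖H k v‖ ≤ C * 2 := by
    intro k v
    refine (hHle k v).trans (mul_le_mul_of_nonneg_left ?_ hC)
    rw [Real.sqrt_le_left (by norm_num)]
    calc E k ≤ ∫ x, (4 : ℝ) ∂μ := by
          refine integral_mono_of_nonneg (Eventually.of_forall fun x => by positivity)
            (integrable_const _) (Eventually.of_forall fun x => ?_)
          have := norm_a_le (N k) x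
          have h3 := norm_nonneg (a (N k) x)
          show ‖a (N k) x‖ ^ 2 ≤ 4
          nlinarith
      _ = 2 ^ 2 := by rw [integral_const]; simp; norm_num
  -- the square mean of H / s tends to zero
  have hh : Tendsto (fun k => ∫ v, (‖H k v‖ / √(E k)) ^ 2 ∂α) atTop (𝓝 0) := by
    have h3 := tendsto_integral_of_dominated_convergence (μ := α)
      (F := fun k v => (‖H k v‖ / √(E k)) ^ 2) (f := fun _ => (0 : ℝ)) (fun _ => C ^ 2)
      (fun k => (((hHm k).norm.div_const _).pow_const 2).aestronglyMeasurable)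
      (integrable_const _)
      (fun k => Eventually.of_forall fun v => by
        rw [Real.norm_eq_abs, abs_of_nonneg (sq_nonneg _)]
        refine pow_le_pow_left₀ (by positivity) ?_ 2
        rw [div_le_iff₀ (Real.sqrt_pos.2 (hE k))]
        exact hHle k v)
      (Eventually.of_forall fun v => by
        have h4 := weak (μ := μ) h2 hE h0 (h := fun x => G (x, v)) (C := C)
          (hG.comp (measurable_id.prodMk measurable_const))
          (fun x => by rw [abs_of_nonneg (hG0 _)]; exact hGC _)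
        have h5 := h4.pow 2
        simpa using h5)
    simpa using h3
  have hbound : ∀ k, ‖∫ p, (G p : ℂ) * (a (N k) p.1 * star (a (N k) p.2)) ∂(μ.prod α)‖ / E k
      ≤ √(∫ v, (‖H k v‖ / √(E k)) ^ 2 ∂α) * √(D k / E k) := by
    intro k
    have hs : 0 < √(E k) := Real.sqrt_pos.2 (hE k)
    have hmeas : Measurable fun p : Tor × Tor =>
        (G p : ℂ) * (a (N k) p.1 * star (a (N k) p.2)) :=
      hGc.mul (((measurable_a _).comp measurable_fst).mul
        (continuous_star.measurable.comp ((measurable_a _).comp measurable_snd)))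
    have hint : Integrable (fun p : Tor × Tor =>
        (G p : ℂ) * (a (N k) p.1 * star (a (N k) p.2))) (μ.prod α) := by
      refine integrable_of_bound hmeas (A := C * (2 * 2)) fun p => ?_
      rw [norm_mul, norm_mul, norm_star, Complex.norm_real, Real.norm_eq_abs,
        abs_of_nonneg (hG0 _)]
      exact mul_le_mul (hGC _) (mul_le_mul (norm_a_le _ _) (norm_a_le _ _) (norm_nonneg _)
        (by norm_num)) (by positivity) hC
    have e1 : ∫ p, (G p : ℂ) * (a (N k) p.1 * star (a (N k) p.2)) ∂(μ.prod α)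
        = ∫ v, H k v * star (a (N k) v) ∂α := by
      rw [integral_prod_symm _ hint]
      refine integral_congr_ae (Eventually.of_forall fun v => ?_)
      simp only [hHdef]
      rw [← integral_mul_const]
      refine integral_congr_ae (Eventually.of_forall fun x => ?_)
      simp only
      ring
    have e2 : ‖∫ v, H k v * star (a (N k) v) ∂α‖ ≤ ∫ v, ‖H k v‖ * ‖a (N k) v‖ ∂α := by
      refine (norm_integral_le_integral_norm _).trans (le_of_eq ?_)
      refine integral_congr_ae (Eventually.of_forall fun v => ?_)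
      simp only [norm_mul, norm_star]
    have e3 : ∫ v, ‖H k v‖ * ‖a (N k) v‖ ∂α ≤ √(∫ v, ‖H k v‖ ^ 2 ∂α) * √(D k) :=
      cs (A := max (C * 2) 2) (hHm k).norm (measurable_a (N k)).norm (fun _ => norm_nonneg _)
        (fun _ => norm_nonneg _) (fun v => (hHle' k v).trans (le_max_left _ _))
        (fun v => (norm_a_le _ _).trans (le_max_right _ _))
    have e4 : √(∫ v, (‖H k v‖ / √(E k)) ^ 2 ∂α) = √(∫ v, ‖H k v‖ ^ 2 ∂α) / √(E k) := by
      have : ∀ v, (‖H k v‖ / √(E k)) ^ 2 = (E k)⁻¹ * ‖H k v‖ ^ 2 := by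
        intro v
        rw [div_pow, Real.sq_sqrt (hE k).le, div_eq_inv_mul]
      simp only [this]
      rw [integral_const_mul, Real.sqrt_mul (inv_nonneg.2 (hE k).le), Real.sqrt_inv,
        div_eq_inv_mul]
    rw [e4, Real.sqrt_div' _ (hE k).le, e1]
    have e5 : √(∫ v, ‖H k v‖ ^ 2 ∂α) / √(E k) * (√(D k) / √(E k))
        = (√(∫ v, ‖H k v‖ ^ 2 ∂α) * √(D k)) / E k := by
      rw [div_mul_div_comm, Real.mul_self_sqrt (hE k).le]
    rw [e5]
    exact div_le_div_of_nonneg_right (e2.trans e3) (hE k).le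
  have hlim : Tendsto (fun k => √(∫ v, (‖H k v‖ / √(E k)) ^ 2 ∂α) * √(D k / E k)) atTop (𝓝 0) := by
    have h4 := (Real.continuous_sqrt.tendsto 0).comp hh
    have h5 := (Real.continuous_sqrt.tendsto L).comp hL
    rw [Real.sqrt_zero] at h4
    have h6 := h4.mul h5
    rw [zero_mul] at h6
    exact h6
  exact squeeze_zero (fun k => div_nonneg (norm_nonneg _) (hE k).le) hbound hlim

end

end Helper97.IP
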