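import Mathlib
import Pool.Agent.Helper97.IP.Step

/-!
# Rigid sequences: the energy of a component of a convolution power
-/

set_option autoImplicit false
open MeasureTheory Filter Topology ProbabilityTheory Helper35.AG
open scoped ENNReal InnerProductSpace

namespace Helper97.IP

open Helper75.IP (cp Ext)

/-- the pointwise expansion -/
theorem expand (A B : ℂ) :
    |‖A + B + A * B‖ ^ 2 - ‖A‖ ^ 2 - ‖B‖ ^ 2 - 2 * (A * star B).re|
      ≤ ‖A‖ ^ 2 * ‖B‖ ^ 2 + 2 * (‖A‖ ^ 2 * ‖B‖) + 2 * (‖A‖ * ‖B‖ ^ 2) := by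
  have h1 : ‖A + B + A * B‖ ^ 2 = ‖A + B‖ ^ 2 + ‖A * B‖ ^ 2
      + 2 * ((A + B) * star (A * B)).re := by
    rw [Complex.sq_norm, Complex.sq_norm, Complex.sq_norm, Complex.normSq_add]
    rfl
  have h2 : ‖A + B‖ ^ 2 = ‖A‖ ^ 2 + ‖B‖ ^ 2 + 2 * (A * star B).re := by
    rw [Complex.sq_norm, Complex.sq_norm, Complex.sq_norm, Complex.normSq_add]
    rfl
  have h3 : |((A + B) * star (A * B)).re| ≤ (‖A‖ + ‖B‖) * (‖A‖ * ‖B‖) := by
    refine (Complex.abs_re_le_norm _).trans ?_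
    rw [norm_mul, norm_star, norm_mul]
    exact mul_le_mul_of_nonneg_right (norm_add_le _ _) (by positivity)
  have h4 : ‖A * B‖ ^ 2 = ‖A‖ ^ 2 * ‖B‖ ^ 2 := by rw [norm_mul, mul_pow]
  rw [h1, h2, h4, abs_le]
  rw [abs_le] at h3
  constructor
  · nlinarith [h3.1, h3.2, sq_nonneg (‖A‖ * ‖B‖)]
  · nlinarith [h3.1, h3.2]

/-- one step -/
theorem step {μ α ρ : Measure Tor} [IsProbabilityMeasure μ] [IsProbabilityMeasure α]
    (h2 : MeasurePreserving (fun x : Tor => (2 : ℕ) • x) μ μ) {N : ℕ → ℤ}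
    (hE : ∀ k, 0 < ∫ x, ‖a (N k) x‖ ^ 2 ∂μ)
    (h0 : Tendsto (fun k => ∫ x, ‖a (N k) x‖ ^ 2 ∂μ) atTop (𝓝 0))
    {L : ℝ} (hL : Tendsto (fun k => (∫ x, ‖a (N k) x‖ ^ 2 ∂α) / ∫ x, ‖a (N k) x‖ ^ 2 ∂μ)
      atTop (𝓝 L))
    {J : Measure (Tor × Tor)} [IsProbabilityMeasure J] {c : ℝ≥0∞} (hc : c ≠ ⊤)
    (hJ : J ≤ c • μ.prod α) (hρ : J.map (fun p => p.1 + p.2) = ρ) (h1 : J.map Prod.fst = μ)
    {L' : ℝ} (hL' : Tendsto (fun k => (∫ x, ‖a (N k) x‖ ^ 2 ∂(J.map Prod.snd)) /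
      ∫ x, ‖a (N k) x‖ ^ 2 ∂μ) atTop (𝓝 L')) :
    Tendsto (fun k => (∫ x, ‖a (N k) x‖ ^ 2 ∂ρ) / ∫ x, ‖a (N k) x‖ ^ 2 ∂μ)
      atTop (𝓝 (L' + 1)) := by
  obtain ⟨C, G, hC1, hG, hG0, hGC, hJG⟩ := exists_density hc hJ
  have hC0 : 0 ≤ C := zero_le_one.trans hC1
  set E : ℕ → ℝ := fun k => ∫ x, ‖a (N k) x‖ ^ 2 ∂μ with hEdef
  set D : ℕ → ℝ := fun k => ∫ x, ‖a (N k) x‖ ^ 2 ∂α with hDdef
  set B : ℕ → ℝ := fun k => ∫ x, ‖a (N k) x‖ ^ 2 ∂(J.map Prod.snd) with hBdef
  set X : ℕ → ℝ := fun k => ‖∫ p, (G p : ℂ) * (a (N k) p.1 * star (a (N k) p.2)) ∂(μ.prod α)‖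
    with hXdef
  have hJint : ∀ f : Tor × Tor → ℝ, ∫ p, f p ∂J = ∫ p, G p * f p ∂(μ.prod α) := by
    intro f
    rw [hJG, integral_withDensity_eq_integral_toReal_smul hG.ennreal_ofReal
      (Eventually.of_forall fun _ => ENNReal.ofReal_lt_top)]
    refine integral_congr_ae (Eventually.of_forall fun p => ?_)
    simp only [smul_eq_mul]
    rw [ENNReal.toReal_ofReal (hG0 p)]
  have hma : ∀ n, Measurable fun x => ‖a n x‖ := fun n => (measurable_a n).norm
  have hma1 : ∀ n, Measurable fun p : Tor × Tor => ‖a n p.1‖ := fun n =>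
    (hma n).comp measurable_fst
  have hma2 : ∀ n, Measurable fun p : Tor × Tor => ‖a n p.2‖ := fun n =>
    (hma n).comp measurable_snd
  have hmc : ∀ n, Measurable fun p : Tor × Tor => (a n p.1 * star (a n p.2)).re := fun n =>
    Complex.measurable_re.comp (((measurable_a n).comp measurable_fst).mul
      (continuous_star.measurable.comp ((measurable_a n).comp measurable_snd)))
  have hsum : Measurable fun p : Tor × Tor => p.1 + p.2 := by fun_prop
  -- the key inequality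
  have hkey : ∀ k, |(∫ x, ‖a (N k) x‖ ^ 2 ∂ρ) - E k - B k| ≤
      2 * X k + C * (E k * D k) + 2 * (C * (E k * √(D k))) + 2 * (C * (√(E k) * D k)) := by
    intro k
    set n := N k with hn
    have i1 : Integrable (fun p : Tor × Tor => ‖a n p.1‖ ^ 2) J :=
      integrable_of_bound ((hma1 n).pow_const 2) (A := 4) fun p => by
        rw [Real.norm_eq_abs, abs_of_nonneg (sq_nonneg _)]
        nlinarith [norm_a_le n p.1, norm_nonneg (a n p.1)]
    have i2 : Integrable (fun p : Tor × Tor => ‖a n p.2‖ ^ 2) J :=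
      integrable_of_bound ((hma2 n).pow_const 2) (A := 4) fun p => by
        rw [Real.norm_eq_abs, abs_of_nonneg (sq_nonneg _)]
        nlinarith [norm_a_le n p.2, norm_nonneg (a n p.2)]
    have hcb : ∀ p : Tor × Tor, ‖(a n p.1 * star (a n p.2)).re‖ ≤ 4 := fun p => by
      rw [Real.norm_eq_abs]
      refine (Complex.abs_re_le_norm _).trans ?_
      rw [norm_mul, norm_star]
      nlinarith [norm_a_le n p.1, norm_nonneg (a n p.1), norm_a_le n p.2, norm_nonneg (a n p.2)]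
    have i3 : Integrable (fun p : Tor × Tor => (a n p.1 * star (a n p.2)).re) J :=
      integrable_of_bound (hmc n) hcb
    have i0 : Integrable (fun p : Tor × Tor => ‖a n (p.1 + p.2)‖ ^ 2) J :=
      integrable_of_bound (((hma n).comp hsum).pow_const 2) (A := 4) fun p => by
        rw [Real.norm_eq_abs, abs_of_nonneg (sq_nonneg _)]
        nlinarith [norm_a_le n (p.1 + p.2), norm_nonneg (a n (p.1 + p.2))]
    have e0 : ∫ x, ‖a n x‖ ^ 2 ∂ρ = ∫ p, ‖a n (p.1 + p.2)‖ ^ 2 ∂J := by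
      rw [← hρ, integral_map hsum.aemeasurable ((hma n).pow_const 2).aestronglyMeasurable]
    have e1 : E k = ∫ p, ‖a n p.1‖ ^ 2 ∂J := by
      have : E k = ∫ x, ‖a n x‖ ^ 2 ∂(J.map Prod.fst) := by rw [h1]
      rw [this, integral_map measurable_fst.aemeasurable
        ((hma n).pow_const 2).aestronglyMeasurable]
    have e2 : B k = ∫ p, ‖a n p.2‖ ^ 2 ∂J := by
      show ∫ x, ‖a n x‖ ^ 2 ∂(J.map Prod.snd) = _
      rw [integral_map measurable_snd.aemeasurable ((hma n).pow_const 2).aestronglyMeasurable]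
    have e3 : (∫ x, ‖a n x‖ ^ 2 ∂ρ) - E k - B k
        = (∫ p, (‖a n (p.1 + p.2)‖ ^ 2 - ‖a n p.1‖ ^ 2 - ‖a n p.2‖ ^ 2
            - 2 * (a n p.1 * star (a n p.2)).re) ∂J)
          + 2 * ∫ p, (a n p.1 * star (a n p.2)).re ∂J := by
      have b1 : ∫ p, (‖a n (p.1 + p.2)‖ ^ 2 - ‖a n p.1‖ ^ 2 - ‖a n p.2‖ ^ 2
            - 2 * (a n p.1 * star (a n p.2)).re) ∂J
          = (∫ p, (‖a n (p.1 + p.2)‖ ^ 2 - ‖a n p.1‖ ^ 2 - ‖a n p.2‖ ^ 2) ∂J)
            - ∫ p, 2 * (a n p.1 * star (a n p.2)).re ∂J :=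
        integral_sub ((i0.sub i1).sub i2) (i3.const_mul 2)
      have b2 : ∫ p, (‖a n (p.1 + p.2)‖ ^ 2 - ‖a n p.1‖ ^ 2 - ‖a n p.2‖ ^ 2) ∂J
          = (∫ p, (‖a n (p.1 + p.2)‖ ^ 2 - ‖a n p.1‖ ^ 2) ∂J) - ∫ p, ‖a n p.2‖ ^ 2 ∂J :=
        integral_sub (i0.sub i1) i2
      rw [b1, b2, integral_sub i0 i1, integral_const_mul, e0, e1, e2]
      ring
    have e4 : |∫ p, (a n p.1 * star (a n p.2)).re ∂J| ≤ X k := by
      rw [hJint]
      have hint : Integrable (fun p : Tor × Tor =>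
          (G p : ℂ) * (a n p.1 * star (a n p.2))) (μ.prod α) := by
        refine integrable_of_bound ((Complex.measurable_ofReal.comp hG).mul
          (((measurable_a n).comp measurable_fst).mul
          (continuous_star.measurable.comp ((measurable_a n).comp measurable_snd))))
          (A := C * (2 * 2)) fun p => ?_
        rw [norm_mul, norm_mul, norm_star, Complex.norm_real,
          Real.norm_eq_abs, abs_of_nonneg (hG0 _)]
        exact mul_le_mul (hGC _) (mul_le_mul (norm_a_le _ _) (norm_a_le _ _) (norm_nonneg _)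
          (by norm_num)) (by positivity) hC0
      have e5 : ∫ p, G p * (a n p.1 * star (a n p.2)).re ∂(μ.prod α)
          = (∫ p, (G p : ℂ) * (a n p.1 * star (a n p.2)) ∂(μ.prod α)).re := by
        have h6 := integral_re hint
        have h7 : ∀ p : Tor × Tor, RCLike.re ((G p : ℂ) * (a n p.1 * star (a n p.2)))
            = G p * (a n p.1 * star (a n p.2)).re := fun p => Complex.re_ofReal_mul _ _
        simp only [h7] at h6
        exact h6
      rw [e5]
      exact Complex.abs_re_le_norm _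
    have e6 : |∫ p, (‖a n (p.1 + p.2)‖ ^ 2 - ‖a n p.1‖ ^ 2 - ‖a n p.2‖ ^ 2
            - 2 * (a n p.1 * star (a n p.2)).re) ∂J|
        ≤ C * (E k * D k) + 2 * (C * (E k * √(D k))) + 2 * (C * (√(E k) * D k)) := by
      have j1 : Integrable (fun p : Tor × Tor => ‖a n p.1‖ ^ 2 * ‖a n p.2‖ ^ 2) J :=
        integrable_of_bound (((hma1 n).pow_const 2).mul ((hma2 n).pow_const 2)) (A := 16)
          fun p => by
            rw [Real.norm_eq_abs, abs_of_nonneg (by positivity)]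
            have h8 : ‖a n p.1‖ ^ 2 ≤ 4 := by nlinarith [norm_a_le n p.1, norm_nonneg (a n p.1)]
            have h9 : ‖a n p.2‖ ^ 2 ≤ 4 := by nlinarith [norm_a_le n p.2, norm_nonneg (a n p.2)]
            nlinarith [sq_nonneg ‖a n p.1‖, sq_nonneg ‖a n p.2‖]
      have j2 : Integrable (fun p : Tor × Tor => ‖a n p.1‖ ^ 2 * ‖a n p.2‖) J :=
        integrable_of_bound (((hma1 n).pow_const 2).mul (hma2 n)) (A := 8)
          fun p => by
            rw [Real.norm_eq_abs, abs_of_nonneg (by positivity)]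
            have h8 : ‖a n p.1‖ ^ 2 ≤ 4 := by nlinarith [norm_a_le n p.1, norm_nonneg (a n p.1)]
            nlinarith [sq_nonneg ‖a n p.1‖, norm_a_le n p.2, norm_nonneg (a n p.2)]
      have j3 : Integrable (fun p : Tor × Tor => ‖a n p.1‖ * ‖a n p.2‖ ^ 2) J :=
        integrable_of_bound ((hma1 n).mul ((hma2 n).pow_const 2)) (A := 8)
          fun p => by
            rw [Real.norm_eq_abs, abs_of_nonneg (by positivity)]
            have h9 : ‖a n p.2‖ ^ 2 ≤ 4 := by nlinarith [norm_a_le n p.2, norm_nonneg (a n p.2)]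
            nlinarith [sq_nonneg ‖a n p.2‖, norm_a_le n p.1, norm_nonneg (a n p.1)]
      calc |∫ p, (‖a n (p.1 + p.2)‖ ^ 2 - ‖a n p.1‖ ^ 2 - ‖a n p.2‖ ^ 2
            - 2 * (a n p.1 * star (a n p.2)).re) ∂J|
          ≤ ∫ p, |‖a n (p.1 + p.2)‖ ^ 2 - ‖a n p.1‖ ^ 2 - ‖a n p.2‖ ^ 2
            - 2 * (a n p.1 * star (a n p.2)).re| ∂J := abs_integral_le_integral_abs
        _ ≤ ∫ p, (‖a n p.1‖ ^ 2 * ‖a n p.2‖ ^ 2 + 2 * (‖a n p.1‖ ^ 2 * ‖a n p.2‖)
              + 2 * (‖a n p.1‖ * ‖a n p.2‖ ^ 2)) ∂J := by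
            refine integral_mono_of_nonneg (Eventually.of_forall fun p => abs_nonneg _)
              ((j1.add (j2.const_mul 2)).add (j3.const_mul 2))
              (Eventually.of_forall fun p => ?_)
            have := expand (a n p.1) (a n p.2)
            rw [← a_add] at this
            exact this
        _ = (∫ p, ‖a n p.1‖ ^ 2 * ‖a n p.2‖ ^ 2 ∂J)
              + 2 * (∫ p, ‖a n p.1‖ ^ 2 * ‖a n p.2‖ ∂J)
              + 2 * ∫ p, ‖a n p.1‖ * ‖a n p.2‖ ^ 2 ∂J := by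
            have a1 : ∫ p, (‖a n p.1‖ ^ 2 * ‖a n p.2‖ ^ 2 + 2 * (‖a n p.1‖ ^ 2 * ‖a n p.2‖)
                + 2 * (‖a n p.1‖ * ‖a n p.2‖ ^ 2)) ∂J
                = (∫ p, (‖a n p.1‖ ^ 2 * ‖a n p.2‖ ^ 2 + 2 * (‖a n p.1‖ ^ 2 * ‖a n p.2‖)) ∂J)
                  + ∫ p, 2 * (‖a n p.1‖ * ‖a n p.2‖ ^ 2) ∂J :=
              integral_add (j1.add (j2.const_mul 2)) (j3.const_mul 2)
            have a2 : ∫ p, (‖a n p.1‖ ^ 2 * ‖a n p.2‖ ^ 2 + 2 * (‖a n p.1‖ ^ 2 * ‖a n p.2‖)) ∂J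
                = (∫ p, ‖a n p.1‖ ^ 2 * ‖a n p.2‖ ^ 2 ∂J)
                  + ∫ p, 2 * (‖a n p.1‖ ^ 2 * ‖a n p.2‖) ∂J :=
              integral_add j1 (j2.const_mul 2)
            rw [a1, a2, integral_const_mul, integral_const_mul]
        _ ≤ C * (E k * D k) + 2 * (C * (E k * √(D k))) + 2 * (C * (√(E k) * D k)) := by
            have hb4 : ∀ x, ‖a n x‖ ^ 2 ≤ 4 := fun x => by
              nlinarith [norm_a_le n x, norm_nonneg (a n x)]
            have hb4' : ∀ x, ‖a n x‖ ≤ 4 := fun x => (norm_a_le n x).trans (by norm_num)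
            have m1 := bound_prod (μ := μ) (α := α) hG hG0 hGC (f := fun x => ‖a n x‖ ^ 2)
              (g := fun x => ‖a n x‖ ^ 2) (A := 4) ((hma n).pow_const 2) ((hma n).pow_const 2)
              (fun x => sq_nonneg _) (fun x => sq_nonneg _) hb4 hb4
            have m2 := bound_prod (μ := μ) (α := α) hG hG0 hGC (f := fun x => ‖a n x‖ ^ 2)
              (g := fun x => ‖a n x‖) (A := 4) ((hma n).pow_const 2) (hma n)
              (fun x => sq_nonneg _) (fun x => norm_nonneg _) hb4 hb4'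
            have m3 := bound_prod (μ := μ) (α := α) hG hG0 hGC (f := fun x => ‖a n x‖)
              (g := fun x => ‖a n x‖ ^ 2) (A := 4) (hma n) ((hma n).pow_const 2)
              (fun x => norm_nonneg _) (fun x => sq_nonneg _) hb4' hb4
            rw [hJint, hJint, hJint]
            have hD0 : 0 ≤ D k := integral_nonneg fun x => sq_nonneg _
            have m2' : C * ((∫ x, ‖a n x‖ ^ 2 ∂μ) * ∫ x, ‖a n x‖ ∂α) ≤ C * (E k * √(D k)) :=
              mul_le_mul_of_nonneg_left (mul_le_mul_of_nonneg_left (mean_le α n) (hE k).le) hC0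
            have m3' : C * ((∫ x, ‖a n x‖ ∂μ) * ∫ x, ‖a n x‖ ^ 2 ∂α) ≤ C * (√(E k) * D k) :=
              mul_le_mul_of_nonneg_left (mul_le_mul_of_nonneg_right (mean_le μ n) hD0) hC0
            have m1' : C * ((∫ x, ‖a n x‖ ^ 2 ∂μ) * ∫ x, ‖a n x‖ ^ 2 ∂α) = C * (E k * D k) := rfl
            linarith
    rw [e3]
    calc _ ≤ |∫ p, (‖a n (p.1 + p.2)‖ ^ 2 - ‖a n p.1‖ ^ 2 - ‖a n p.2‖ ^ 2
            - 2 * (a n p.1 * star (a n p.2)).re) ∂J|
          + |2 * ∫ p, (a n p.1 * star (a n p.2)).re ∂J| := abs_add_le _ _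
      _ ≤ _ := by
          rw [abs_mul, abs_of_pos (by norm_num : (0 : ℝ) < 2)]
          linarith
  -- the error divided by `E` tends to zero
  have hX := cross (μ := μ) (α := α) h2 hE h0 hL hG hG0 hGC
  have hD0 : Tendsto D atTop (𝓝 0) := by
    have h3 := hL.mul h0
    rw [mul_zero] at h3
    refine h3.congr fun k => ?_
    exact div_mul_cancel₀ _ (hE k).ne'
  have hsD : Tendsto (fun k => √(D k)) atTop (𝓝 0) := by
    have := (Real.continuous_sqrt.tendsto 0).comp hD0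
    rw [Real.sqrt_zero] at this
    exact this
  have hsE : Tendsto (fun k => √(E k)) atTop (𝓝 0) := by
    have := (Real.continuous_sqrt.tendsto 0).comp h0
    rw [Real.sqrt_zero] at this
    exact this
  have herr : Tendsto (fun k => 2 * (X k / E k) + C * D k + 2 * (C * √(D k))
      + 2 * (C * (√(E k) * (D k / E k)))) atTop (𝓝 0) := by
    have h3 : Tendsto (fun k => 2 * (X k / E k) + C * D k + 2 * (C * √(D k))
        + 2 * (C * (√(E k) * (D k / E k)))) atTop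
        (𝓝 (2 * 0 + C * 0 + 2 * (C * 0) + 2 * (C * (0 * L)))) :=
      (((hX.const_mul 2).add (hD0.const_mul C)).add ((hsD.const_mul C).const_mul 2)).add
      (((hsE.mul hL).const_mul C).const_mul 2)
    have e : 2 * 0 + C * 0 + 2 * (C * 0) + 2 * (C * (0 * L)) = 0 := by ring
    rw [e] at h3
    exact h3
  have hdiff : Tendsto (fun k => ((∫ x, ‖a (N k) x‖ ^ 2 ∂ρ) - E k - B k) / E k) atTop (𝓝 0) := by
    refine squeeze_zero_norm (fun k => ?_) herr
    have hEk' : 0 < E k := hE k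
    have hEk : E k ≠ 0 := hEk'.ne'
    rw [Real.norm_eq_abs, abs_div, abs_of_pos hEk', div_le_iff₀ hEk']
    refine (hkey k).trans (le_of_eq ?_)
    field_simp
  have hfin := (hdiff.add hL').add (tendsto_const_nhds (x := (1 : ℝ)))
  rw [zero_add] at hfin
  refine hfin.congr fun k => ?_
  have hEk : E k ≠ 0 := (hE k).ne'
  have : (∫ x, ‖a (N k) x‖ ^ 2 ∂ρ) / E k
      = ((∫ x, ‖a (N k) x‖ ^ 2 ∂ρ) - E k - B k) / E k + B k / E k + 1 := by
    field_simp
    ring
  exact this.symm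

/-- the energy of a component of a convolution power, with splitting as a hypothesis -/
theorem rigid_ratio_of {μ : Measure Tor} [IsProbabilityMeasure μ]
    (h2 : MeasurePreserving (fun x : Tor => (2 : ℕ) • x) μ μ)
    (hinv : ∀ n, Inv (cp μ n))
    (hsplit : ∀ (n : ℕ) (ρ : Measure Tor) (c : ℝ≥0∞), IsProbabilityMeasure ρ → Inv ρ → c ≠ ⊤ →
      ρ ≤ c • conv μ (cp μ n) →
      ∃ J : Measure (Tor × Tor), IsProbabilityMeasure J ∧ J ≤ c • μ.prod (cp μ n) ∧
        J.map (fun p => p.1 + p.2) = ρ ∧ J.map Prod.fst = μ ∧ Inv (J.map Prod.snd) ∧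
        J.map Prod.snd ≤ c • cp μ n)
    (hat : ∀ x, μ {x} = 0) {N : ℕ → ℤ} (hN : ∀ k, N k ≠ 0)
    (h0 : Tendsto (fun k => ∫ x, ‖a (N k) x‖ ^ 2 ∂μ) atTop (𝓝 0)) (n : ℕ) :
    ∀ (ρ : Measure Tor) (c : ℝ≥0∞), IsProbabilityMeasure ρ → Inv ρ → c ≠ ⊤ → ρ ≤ c • cp μ n →
    Tendsto (fun k => (∫ w, ‖a (N k) w‖ ^ 2 ∂ρ) / ∫ x, ‖a (N k) x‖ ^ 2 ∂μ) atTop (𝓝 n) := by
  have hE : ∀ k, 0 < ∫ x, ‖a (N k) x‖ ^ 2 ∂μ := fun k => E_pos hat (hN k)
  induction n with
  | zero =>
      intro ρ c hp hi hc hle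
      have h3 : ∀ k, ∫ w, ‖a (N k) w‖ ^ 2 ∂ρ = 0 := by
        intro k
        have h4 : ρ {(0 : Tor)}ᶜ = 0 := by
          have h5 := hle ({(0 : Tor)}ᶜ)
          rw [Measure.smul_apply] at h5
          have h6 : cp μ 0 {(0 : Tor)}ᶜ = 0 := by
            unfold cp
            rw [Measure.dirac_apply' _ (measurableSet_singleton 0).compl]
            simp
          rw [h6, smul_zero] at h5
          exact le_antisymm h5 zero_le
        have h7 : ∀ᵐ w ∂ρ, ‖a (N k) w‖ ^ 2 = 0 := by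
          have : ∀ᵐ w ∂ρ, w ∈ ({0} : Set Tor) := h4
          filter_upwards [this] with w hw
          rw [Set.mem_singleton_iff.1 hw, a_zero]
          simp
        rw [integral_congr_ae h7, integral_zero]
      simp only [h3, zero_div, Nat.cast_zero]
      exact tendsto_const_nhds
  | succ n ih =>
      intro ρ c hp hi hc hle
      obtain ⟨J, hJp, hJ, hJs, hJ1, hJ2, hJ3⟩ := hsplit n ρ c hp hi hc hle
      have hself : cp μ n ≤ (1 : ℝ≥0∞) • cp μ n := by rw [one_smul]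
      have hL := ih (cp μ n) 1 inferInstance (hinv n) ENNReal.one_ne_top hself
      haveI : IsProbabilityMeasure (J.map Prod.snd) :=
        Measure.isProbabilityMeasure_map measurable_snd.aemeasurable
      have hL' := ih (J.map Prod.snd) c inferInstance hJ2 hc hJ3
      have := step (μ := μ) (α := cp μ n) h2 hE h0 hL hc hJ hJs hJ1 hL'
      push_cast
      exact this

end Helper97.IP
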