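import Mathlib
import Pool.Agent.Helper97.IP.Rigid
import Pool.Agent.Helper26.IP2.Inv

/-!
# Rigid sequences: the energy of a component of a convolution power, statement of the frame
-/

set_option autoImplicit false
open MeasureTheory Filter Topology ProbabilityTheory Helper35.AG
open scoped ENNReal

namespace Helper97.IP

open Helper75.IP (cp Ext)

/-- **R**: energy argument.  `ε_k ^ 2 = ∫ ‖e(n_k x) - 1‖ ^ 2 dμ → 0`, `n_k ≠ 0`; for
invariant `ρ ≤ c cp μ n` the quotient `∫ ‖e(n_k w) - 1‖ ^ 2 dρ / ε_k ^ 2` tends to `n`. -/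
theorem rigid_ratio {μ : Measure Tor} [IsProbabilityMeasure μ] (hμ : Inv μ) (hext : Ext μ)
    (hat : ∀ x, μ {x} = 0) {N : ℕ → ℤ} (hN : ∀ k, N k ≠ 0)
    (h0 : Tendsto (fun k => ∫ x, ‖(fourier (N k) x : ℂ) - 1‖ ^ 2 ∂μ) atTop (𝓝 0))
    (n : ℕ) {ρ : Measure Tor} [IsProbabilityMeasure ρ] (hρ : Inv ρ) {c : ℝ≥0∞} (hc : c ≠ ⊤)
    (hle : ρ ≤ c • cp μ n) :
    Tendsto (fun k => (∫ w, ‖(fourier (N k) w : ℂ) - 1‖ ^ 2 ∂ρ) /
      ∫ x, ‖(fourier (N k) x : ℂ) - 1‖ ^ 2 ∂μ) atTop (𝓝 n) := by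
  have h := rigid_ratio_of (μ := μ) hμ.two (fun n => Helper26.IP.inv_cp hμ n)
    (fun n ρ c hp hi hc hle => by
      haveI := hp
      exact Helper26.IP.split hμ (Helper26.IP.inv_cp hμ n) hi hext hc hle)
    hat hN h0 n ρ c inferInstance hρ hc hle
  exact h

end Helper97.IP
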