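import Mathlib
import Pool.Agent.Helper97.IP.Step

/-!
# Rigid sequences, several measures: weak convergence without positivity
-/

set_option autoImplicit false
open MeasureTheory Filter Topology ProbabilityTheory Helper35.AG
open scoped ENNReal InnerProductSpace

namespace Helper97.IP

theorem weak' {μ : Measure Tor} [IsProbabilityMeasure μ]
    (h2 : MeasurePreserving (fun x : Tor => (2 : ℕ) • x) μ μ) {N : ℕ → ℤ}
    (h0 : Tendsto (fun k => ∫ x, ‖a (N k) x‖ ^ 2 ∂μ) atTop (𝓝 0)) {h : Tor → ℝ} {C : ℝ}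
    (hm : Measurable h) (hC : ∀ x, |h x| ≤ C) :
    Tendsto (fun k => ‖∫ x, a (N k) x * (h x : ℂ) ∂μ‖ / √(∫ x, ‖a (N k) x‖ ^ 2 ∂μ))
      atTop (𝓝 0) := by
  set E : ℕ → ℝ := fun k => ∫ x, ‖a (N k) x‖ ^ 2 ∂μ with hEdef
  set s : ℕ → ℝ := fun k => √(E k) with hsdef
  have hE : ∀ k, 0 ≤ E k := fun k => integral_nonneg fun x => sq_nonneg _
  have hs : ∀ k, 0 ≤ s k := fun k => Real.sqrt_nonneg _
  have hs2 : ∀ k, s k ^ 2 = E k := fun k => Real.sq_sqrt (hE k)
  have hs0 : Tendsto s atTop (𝓝 0) := by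
    have := (Real.continuous_sqrt.tendsto 0).comp h0
    rw [Real.sqrt_zero] at this
    exact this
  have hmem : ∀ k, MemLp (fun x => (((s k)⁻¹ : ℝ) : ℂ) * a (N k) x) 2 μ := fun k =>
    (memLp_a μ (N k) 2).const_mul _
  set F : ℕ → Lp ℂ 2 μ := fun k => (hmem k).toLp _ with hFdef
  set V : Lp ℂ 2 μ →L[ℂ] Lp ℂ 2 μ :=
    (Lp.compMeasurePreservingₗᵢ ℂ (fun x : Tor => (2 : ℕ) • x) h2).toContinuousLinearMap with hVdef
  have hV : ‖V‖ ≤ 1 := LinearIsometry.norm_toContinuousLinearMap_le _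
  have hFn : ∀ k, ‖F k‖ ≤ 1 := by
    intro k
    have h1 : ‖F k‖ ^ 2 ≤ 1 := by
      rw [hFdef, norm_sq_toLp]
      have : ∀ x, ‖(((s k)⁻¹ : ℝ) : ℂ) * a (N k) x‖ ^ 2 = (s k ^ 2)⁻¹ * ‖a (N k) x‖ ^ 2 := by
        intro x
        rw [norm_mul, mul_pow, Complex.norm_real, Real.norm_eq_abs, sq_abs, inv_pow]
      simp only [this]
      rw [integral_const_mul, hs2]
      show (E k)⁻¹ * E k ≤ 1
      rcases (hE k).eq_or_lt with h | h
      · rw [← h]; simp
      · rw [inv_mul_cancel₀ h.ne']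
    nlinarith [norm_nonneg (F k)]
  set R : ℕ → Lp ℂ 2 μ := fun k => V (F k) - (2 : ℂ) • F k with hRdef
  have hVF : ∀ k, V (F k) = (2 : ℂ) • F k + R k := fun k => by rw [hRdef]; simp
  have hVFn : ∀ k, ‖V (F k)‖ ≤ 1 := fun k => by
    rw [hVdef]
    rw [LinearIsometry.coe_toContinuousLinearMap, LinearIsometry.norm_map]
    exact hFn k
  have hRn : ∀ k, ‖R k‖ ≤ 3 := by
    intro k
    calc ‖R k‖ ≤ ‖V (F k)‖ + ‖(2 : ℂ) • F k‖ := norm_sub_le _ _
      _ ≤ 1 + 2 * 1 := by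
        refine add_le_add (hVFn k) ?_
        rw [norm_smul]
        have : ‖(2 : ℂ)‖ = 2 := by simp
        rw [this]
        exact mul_le_mul_of_nonneg_left (hFn k) (by norm_num)
      _ = 3 := by norm_num
  have hRae : ∀ k, ∀ᵐ x ∂μ, R k x = (((s k)⁻¹ : ℝ) : ℂ) * a (N k) x ^ 2 := by
    intro k
    have e1 : V (F k) = ((hmem k).comp_measurePreserving h2).toLp _ := rfl
    have h1 := ((hmem k).comp_measurePreserving h2).coeFn_toLp
    have h3 := (hmem k).coeFn_toLp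
    filter_upwards [h1, h3, Lp.coeFn_sub (V (F k)) ((2 : ℂ) • F k),
      Lp.coeFn_smul (2 : ℂ) (F k)] with x hx1 hx3 hx4 hx5
    have hx6 : R k x = V (F k) x - ((2 : ℂ) • F k : Lp ℂ 2 μ) x := hx4
    rw [hx6, hx5, e1, hx1]
    have hx7 : F k x = (((s k)⁻¹ : ℝ) : ℂ) * a (N k) x := hx3
    simp only [Function.comp_apply, Pi.smul_apply, smul_eq_mul]
    rw [hx7, a_two]
    ring
  have hR1 : Tendsto (fun k => ∫ x, ‖R k x‖ ∂μ) atTop (𝓝 0) := by
    have : ∀ k, ∫ x, ‖R k x‖ ∂μ = s k := by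
      intro k
      have e : ∫ x, ‖R k x‖ ∂μ = ∫ x, (s k)⁻¹ * ‖a (N k) x‖ ^ 2 ∂μ := by
        refine integral_congr_ae ?_
        filter_upwards [hRae k] with x hx
        rw [hx, norm_mul, norm_pow, Complex.norm_real, Real.norm_eq_abs,
          abs_of_nonneg (inv_nonneg.2 (hs k))]
      rw [e, integral_const_mul]
      have : ∫ x, ‖a (N k) x‖ ^ 2 ∂μ = s k ^ 2 := (hs2 k).symm
      rw [this]
      rcases (hs k).eq_or_lt with h | h
      · rw [← h]; simp
      · have := h.ne'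
        field_simp
    simp only [this]
    exact hs0
  have hmh : MemLp (fun x => (h x : ℂ)) 2 μ := by
    refine MemLp.of_bound (C := C) (Complex.measurable_ofReal.comp hm).aestronglyMeasurable
      (Eventually.of_forall fun x => ?_)
    rw [Complex.norm_real]
    exact hC x
  have hw := weak_null V hV hFn hVF (fun φ => weak_of_L1 μ hRn hR1 φ) (hmh.toLp _)
  have hw2 := hw.norm
  rw [norm_zero] at hw2
  refine hw2.congr fun k => ?_
  rw [L2.inner_def]
  have e : ∫ x, ⟪(hmh.toLp _ : Lp ℂ 2 μ) x, F k x⟫_ℂ ∂μ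
      = ∫ x, (((s k)⁻¹ : ℝ) : ℂ) * (a (N k) x * (h x : ℂ)) ∂μ := by
    refine integral_congr_ae ?_
    filter_upwards [hmh.coeFn_toLp, (hmem k).coeFn_toLp] with x hx1 hx2
    have hx7 : F k x = (((s k)⁻¹ : ℝ) : ℂ) * a (N k) x := hx2
    rw [hx1, hx7, RCLike.inner_apply]
    simp only [Complex.conj_ofReal]
    ring
  rw [e, integral_const_mul, norm_mul, Complex.norm_real, Real.norm_eq_abs,
    abs_of_nonneg (inv_nonneg.2 (hs k)), div_eq_inv_mul]

end Helper97.IP
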