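import Mathlib
import Pool.Agent.Helper97.IP.WeakL
import Pool.Agent.Helper97.IP.Rigid

/-!
# Rigid sequences, several measures: the cross term and one step
-/

set_option autoImplicit false
open MeasureTheory Filter Topology ProbabilityTheory Helper35.AG
open scoped ENNReal InnerProductSpace

namespace Helper97.IP

/-- the cross term -/
theorem cross' {μ α : Measure Tor} [IsProbabilityMeasure μ] [IsProbabilityMeasure α]
    (h2 : MeasurePreserving (fun x : Tor => (2 : ℕ) • x) μ μ) {N : ℕ → ℤ}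
    (h0 : Tendsto (fun k => ∫ x, ‖a (N k) x‖ ^ 2 ∂μ) atTop (𝓝 0))
    {G : Tor × Tor → ℝ} {C : ℝ} (hG : Measurable G) (hG0 : ∀ p, 0 ≤ G p)
    (hGC : ∀ p, G p ≤ C) :
    ∃ θ : ℕ → ℝ, (∀ k, 0 ≤ θ k) ∧ Tendsto θ atTop (𝓝 0) ∧
      ∀ k, ‖∫ p, (G p : ℂ) * (a (N k) p.1 * star (a (N k) p.2)) ∂(μ.prod α)‖ ≤
        θ k * (√(∫ x, ‖a (N k) x‖ ^ 2 ∂μ) * √(∫ x, ‖a (N k) x‖ ^ 2 ∂α)) := by
  have hC : 0 ≤ C := (hG0 0).trans (hGC 0)
  set E : ℕ → ℝ := fun k => ∫ x, ‖a (N k) x‖ ^ 2 ∂μ with hEdef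
  set D : ℕ → ℝ := fun k => ∫ x, ‖a (N k) x‖ ^ 2 ∂α with hDdef
  have hE : ∀ k, 0 ≤ E k := fun k => integral_nonneg fun x => sq_nonneg _
  set H : ℕ → Tor → ℂ := fun k v => ∫ x, a (N k) x * (G (x, v) : ℂ) ∂μ with hHdef
  have hGc : Measurable fun p : Tor × Tor => (G p : ℂ) := Complex.measurable_ofReal.comp hG
  have hHm : ∀ k, Measurable (H k) := by
    intro k
    have h1 : StronglyMeasurable (Function.uncurry fun (v x : Tor) => a (N k) x * (G (x, v) : ℂ)) := by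
      refine Measurable.stronglyMeasurable ?_
      exact ((measurable_a (N k)).comp measurable_snd).mul (hGc.comp measurable_swap)
    exact h1.integral_prod_right.measurable
  have hHle : ∀ k v, ‖H k v‖ ≤ C * √(E k) := by
    intro k v
    calc ‖H k v‖ ≤ ∫ x, ‖a (N k) x * (G (x, v) : ℂ)‖ ∂μ := norm_integral_le_integral_norm _
      _ ≤ ∫ x, C * ‖a (N k) x‖ ∂μ := by
          refine integral_mono_of_nonneg (Eventually.of_forall fun x => norm_nonneg _)
            ((integrable_of_bound (measurable_a (N k)).norm (A := 2) fun x => by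
              rw [norm_norm]; exact norm_a_le _ _).const_mul _)
            (Eventually.of_forall fun x => ?_)
          simp only [norm_mul, Complex.norm_real, Real.norm_eq_abs, abs_of_nonneg (hG0 (x, v))]
          rw [mul_comm]
          exact mul_le_mul_of_nonneg_right (hGC _) (norm_nonneg _)
      _ = C * ∫ x, ‖a (N k) x‖ ∂μ := integral_const_mul _ _
      _ ≤ C * √(E k) := mul_le_mul_of_nonneg_left (mean_le μ (N k)) hC
  have hHle' : ∀ k v, ‖H k v‖ ≤ C * 2 := by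
    intro k v
    refine (hHle k v).trans (mul_le_mul_of_nonneg_left ?_ hC)
    rw [Real.sqrt_le_left (by norm_num)]
    calc E k ≤ ∫ x, (4 : ℝ) ∂μ := by
          refine integral_mono_of_nonneg (Eventually.of_forall fun x => by positivity)
            (integrable_const _) (Eventually.of_forall fun x => ?_)
          have := norm_a_le (N k) x
          have h3 := norm_nonneg (a (N k) x)
          show ‖a (N k) x‖ ^ 2 ≤ 4
          nlinarith
      _ = 2 ^ 2 := by rw [integral_const]; simp; norm_num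
  have hh : Tendsto (fun k => ∫ v, (‖H k v‖ / √(E k)) ^ 2 ∂α) atTop (𝓝 0) := by
    have h3 := tendsto_integral_of_dominated_convergence (μ := α)
      (F := fun k v => (‖H k v‖ / √(E k)) ^ 2) (f := fun _ => (0 : ℝ)) (fun _ => C ^ 2)
      (fun k => (((hHm k).norm.div_const _).pow_const 2).aestronglyMeasurable)
      (integrable_const _)
      (fun k => Eventually.of_forall fun v => by
        rw [Real.norm_eq_abs, abs_of_nonneg (sq_nonneg _)]
        refine pow_le_pow_left₀ (by positivity) ?_ 2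
        exact div_le_of_le_mul₀ (Real.sqrt_nonneg _) hC (hHle k v))
      (Eventually.of_forall fun v => by
        have h4 := weak' (μ := μ) h2 h0 (h := fun x => G (x, v)) (C := C)
          (hG.comp (measurable_id.prodMk measurable_const))
          (fun x => by rw [abs_of_nonneg (hG0 _)]; exact hGC _)
        have h5 := h4.pow 2
        simpa using h5)
    simpa using h3
  refine ⟨fun k => √(∫ v, (‖H k v‖ / √(E k)) ^ 2 ∂α), fun k => Real.sqrt_nonneg _, ?_, ?_⟩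
  · have h4 := (Real.continuous_sqrt.tendsto 0).comp hh
    rw [Real.sqrt_zero] at h4
    exact h4
  · intro k
    have hmeas : Measurable fun p : Tor × Tor =>
        (G p : ℂ) * (a (N k) p.1 * star (a (N k) p.2)) :=
      hGc.mul (((measurable_a _).comp measurable_fst).mul
        (continuous_star.measurable.comp ((measurable_a _).comp measurable_snd)))
    have hint : Integrable (fun p : Tor × Tor =>
        (G p : ℂ) * (a (N k) p.1 * star (a (N k) p.2))) (μ.prod α) := by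
      refine integrable_of_bound hmeas (A := C * (2 * 2)) fun p => ?_
      rw [norm_mul, norm_mul, norm_star, Complex.norm_real, Real.norm_eq_abs,
        abs_of_nonneg (hG0 _)]
      exact mul_le_mul (hGC _) (mul_le_mul (norm_a_le _ _) (norm_a_le _ _) (norm_nonneg _)
        (by norm_num)) (by positivity) hC
    have e1 : ∫ p, (G p : ℂ) * (a (N k) p.1 * star (a (N k) p.2)) ∂(μ.prod α)
        = ∫ v, H k v * star (a (N k) v) ∂α := by
      rw [integral_prod_symm _ hint]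
      refine integral_congr_ae (Eventually.of_forall fun v => ?_)
      simp only [hHdef]
      rw [← integral_mul_const]
      refine integral_congr_ae (Eventually.of_forall fun x => ?_)
      simp only
      ring
    have e2 : ‖∫ v, H k v * star (a (N k) v) ∂α‖ ≤ ∫ v, ‖H k v‖ * ‖a (N k) v‖ ∂α := by
      refine (norm_integral_le_integral_norm _).trans (le_of_eq ?_)
      refine integral_congr_ae (Eventually.of_forall fun v => ?_)
      simp only [norm_mul, norm_star]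
    have e3 : ∫ v, ‖H k v‖ * ‖a (N k) v‖ ∂α ≤ √(∫ v, ‖H k v‖ ^ 2 ∂α) * √(D k) :=
      cs (A := max (C * 2) 2) (hHm k).norm (measurable_a (N k)).norm (fun _ => norm_nonneg _)
        (fun _ => norm_nonneg _) (fun v => (hHle' k v).trans (le_max_left _ _))
        (fun v => (norm_a_le _ _).trans (le_max_right _ _))
    have e4 : √(∫ v, ‖H k v‖ ^ 2 ∂α) = √(∫ v, (‖H k v‖ / √(E k)) ^ 2 ∂α) * √(E k) := by
      rcases (hE k).eq_or_lt with h | h
      · have hz : ∀ v, ‖H k v‖ ^ 2 = 0 := by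
          intro v
          have := hHle k v
          rw [← h, Real.sqrt_zero, mul_zero] at this
          have h7 : ‖H k v‖ = 0 := le_antisymm this (norm_nonneg _)
          rw [h7]
          norm_num
        simp only [hz]
        rw [← h]
        simp
      · have : ∀ v, (‖H k v‖ / √(E k)) ^ 2 = (E k)⁻¹ * ‖H k v‖ ^ 2 := by
          intro v
          rw [div_pow, Real.sq_sqrt h.le, div_eq_inv_mul]
        simp only [this]
        rw [integral_const_mul, Real.sqrt_mul (inv_nonneg.2 h.le), Real.sqrt_inv,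
          mul_comm, ← mul_assoc, mul_inv_cancel₀ (Real.sqrt_pos.2 h).ne', one_mul]
    rw [e1]
    refine (e2.trans e3).trans (le_of_eq ?_)
    rw [e4]
    ring

/-- the energy of a splitting -/
theorem key {μ α ρ : Measure Tor} [IsProbabilityMeasure μ] [IsProbabilityMeasure α]
    {J : Measure (Tor × Tor)} [IsProbabilityMeasure J] {G : Tor × Tor → ℝ} {C : ℝ}
    (hG : Measurable G) (hG0 : ∀ p, 0 ≤ G p) (hGC : ∀ p, G p ≤ C)
    (hJG : J = (μ.prod α).withDensity fun p => ENNReal.ofReal (G p))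
    (hρ : J.map (fun p => p.1 + p.2) = ρ) (h1 : J.map Prod.fst = μ) (n : ℤ) :
    |(∫ x, ‖a n x‖ ^ 2 ∂ρ) - (∫ x, ‖a n x‖ ^ 2 ∂μ) - ∫ x, ‖a n x‖ ^ 2 ∂(J.map Prod.snd)| ≤
      2 * ‖∫ p, (G p : ℂ) * (a n p.1 * star (a n p.2)) ∂(μ.prod α)‖
      + C * ((∫ x, ‖a n x‖ ^ 2 ∂μ) * ∫ x, ‖a n x‖ ^ 2 ∂α)
      + 2 * (C * ((∫ x, ‖a n x‖ ^ 2 ∂μ) * √(∫ x, ‖a n x‖ ^ 2 ∂α)))
      + 2 * (C * (√(∫ x, ‖a n x‖ ^ 2 ∂μ) * ∫ x, ‖a n x‖ ^ 2 ∂α)) := by
  have hC0 : 0 ≤ C := (hG0 0).trans (hGC 0)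
  have hJint : ∀ f : Tor × Tor → ℝ, ∫ p, f p ∂J = ∫ p, G p * f p ∂(μ.prod α) := by
    intro f
    rw [hJG, integral_withDensity_eq_integral_toReal_smul hG.ennreal_ofReal
      (Eventually.of_forall fun _ => ENNReal.ofReal_lt_top)]
    refine integral_congr_ae (Eventually.of_forall fun p => ?_)
    simp only [smul_eq_mul]
    rw [ENNReal.toReal_ofReal (hG0 p)]
  have hma : Measurable fun x => ‖a n x‖ := (measurable_a n).norm
  have hma1 : Measurable fun p : Tor × Tor => ‖a n p.1‖ := hma.comp measurable_fst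
  have hma2 : Measurable fun p : Tor × Tor => ‖a n p.2‖ := hma.comp measurable_snd
  have hmc : Measurable fun p : Tor × Tor => (a n p.1 * star (a n p.2)).re :=
    Complex.measurable_re.comp (((measurable_a n).comp measurable_fst).mul
      (continuous_star.measurable.comp ((measurable_a n).comp measurable_snd)))
  have hsum : Measurable fun p : Tor × Tor => p.1 + p.2 := by fun_prop
  have hb4 : ∀ x, ‖a n x‖ ^ 2 ≤ 4 := fun x => by
    nlinarith [norm_a_le n x, norm_nonneg (a n x)]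
  have hb4' : ∀ x, ‖a n x‖ ≤ 4 := fun x => (norm_a_le n x).trans (by norm_num)
  have i1 : Integrable (fun p : Tor × Tor => ‖a n p.1‖ ^ 2) J :=
    integrable_of_bound (hma1.pow_const 2) (A := 4) fun p => by
      rw [Real.norm_eq_abs, abs_of_nonneg (sq_nonneg _)]
      exact hb4 _
  have i2 : Integrable (fun p : Tor × Tor => ‖a n p.2‖ ^ 2) J :=
    integrable_of_bound (hma2.pow_const 2) (A := 4) fun p => by
      rw [Real.norm_eq_abs, abs_of_nonneg (sq_nonneg _)]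
      exact hb4 _
  have hcb : ∀ p : Tor × Tor, ‖(a n p.1 * star (a n p.2)).re‖ ≤ 4 := fun p => by
    rw [Real.norm_eq_abs]
    refine (Complex.abs_re_le_norm _).trans ?_
    rw [norm_mul, norm_star]
    nlinarith [norm_a_le n p.1, norm_nonneg (a n p.1), norm_a_le n p.2, norm_nonneg (a n p.2)]
  have i3 : Integrable (fun p : Tor × Tor => (a n p.1 * star (a n p.2)).re) J :=
    integrable_of_bound hmc hcb
  have i0 : Integrable (fun p : Tor × Tor => ‖a n (p.1 + p.2)‖ ^ 2) J :=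
    integrable_of_bound ((hma.comp hsum).pow_const 2) (A := 4) fun p => by
      rw [Real.norm_eq_abs, abs_of_nonneg (sq_nonneg _)]
      exact hb4 _
  have e0 : ∫ x, ‖a n x‖ ^ 2 ∂ρ = ∫ p, ‖a n (p.1 + p.2)‖ ^ 2 ∂J := by
    rw [← hρ, integral_map hsum.aemeasurable (hma.pow_const 2).aestronglyMeasurable]
  have e1 : ∫ x, ‖a n x‖ ^ 2 ∂μ = ∫ p, ‖a n p.1‖ ^ 2 ∂J := by
    have : ∫ x, ‖a n x‖ ^ 2 ∂μ = ∫ x, ‖a n x‖ ^ 2 ∂(J.map Prod.fst) := by rw [h1]
    rw [this, integral_map measurable_fst.aemeasurable (hma.pow_const 2).aestronglyMeasurable]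
  have e2 : ∫ x, ‖a n x‖ ^ 2 ∂(J.map Prod.snd) = ∫ p, ‖a n p.2‖ ^ 2 ∂J := by
    rw [integral_map measurable_snd.aemeasurable (hma.pow_const 2).aestronglyMeasurable]
  have e3 : (∫ x, ‖a n x‖ ^ 2 ∂ρ) - (∫ x, ‖a n x‖ ^ 2 ∂μ) - ∫ x, ‖a n x‖ ^ 2 ∂(J.map Prod.snd)
      = (∫ p, (‖a n (p.1 + p.2)‖ ^ 2 - ‖a n p.1‖ ^ 2 - ‖a n p.2‖ ^ 2
          - 2 * (a n p.1 * star (a n p.2)).re) ∂J)
        + 2 * ∫ p, (a n p.1 * star (a n p.2)).re ∂J := by
    have b1 : ∫ p, (‖a n (p.1 + p.2)‖ ^ 2 - ‖a n p.1‖ ^ 2 - ‖a n p.2‖ ^ 2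
          - 2 * (a n p.1 * star (a n p.2)).re) ∂J
        = (∫ p, (‖a n (p.1 + p.2)‖ ^ 2 - ‖a n p.1‖ ^ 2 - ‖a n p.2‖ ^ 2) ∂J)
          - ∫ p, 2 * (a n p.1 * star (a n p.2)).re ∂J :=
      integral_sub ((i0.sub i1).sub i2) (i3.const_mul 2)
    have b2 : ∫ p, (‖a n (p.1 + p.2)‖ ^ 2 - ‖a n p.1‖ ^ 2 - ‖a n p.2‖ ^ 2) ∂J
        = (∫ p, (‖a n (p.1 + p.2)‖ ^ 2 - ‖a n p.1‖ ^ 2) ∂J) - ∫ p, ‖a n p.2‖ ^ 2 ∂J :=
      integral_sub (i0.sub i1) i2
    rw [b1, b2, integral_sub i0 i1, integral_const_mul, e0, e1, e2]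
    ring
  have e4 : |∫ p, (a n p.1 * star (a n p.2)).re ∂J|
      ≤ ‖∫ p, (G p : ℂ) * (a n p.1 * star (a n p.2)) ∂(μ.prod α)‖ := by
    rw [hJint]
    have hint : Integrable (fun p : Tor × Tor =>
        (G p : ℂ) * (a n p.1 * star (a n p.2))) (μ.prod α) := by
      refine integrable_of_bound ((Complex.measurable_ofReal.comp hG).mul
        (((measurable_a n).comp measurable_fst).mul
        (continuous_star.measurable.comp ((measurable_a n).comp measurable_snd))))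
        (A := C * (2 * 2)) fun p => ?_
      rw [norm_mul, norm_mul, norm_star, Complex.norm_real,
        Real.norm_eq_abs, abs_of_nonneg (hG0 _)]
      exact mul_le_mul (hGC _) (mul_le_mul (norm_a_le _ _) (norm_a_le _ _) (norm_nonneg _)
        (by norm_num)) (by positivity) hC0
    have e5 : ∫ p, G p * (a n p.1 * star (a n p.2)).re ∂(μ.prod α)
        = (∫ p, (G p : ℂ) * (a n p.1 * star (a n p.2)) ∂(μ.prod α)).re := by
      have h6 := integral_re hint
      have h7 : ∀ p : Tor × Tor, RCLike.re ((G p : ℂ) * (a n p.1 * star (a n p.2)))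
          = G p * (a n p.1 * star (a n p.2)).re := fun p => Complex.re_ofReal_mul _ _
      simp only [h7] at h6
      exact h6
    rw [e5]
    exact Complex.abs_re_le_norm _
  have e6 : |∫ p, (‖a n (p.1 + p.2)‖ ^ 2 - ‖a n p.1‖ ^ 2 - ‖a n p.2‖ ^ 2
          - 2 * (a n p.1 * star (a n p.2)).re) ∂J|
      ≤ C * ((∫ x, ‖a n x‖ ^ 2 ∂μ) * ∫ x, ‖a n x‖ ^ 2 ∂α)
      + 2 * (C * ((∫ x, ‖a n x‖ ^ 2 ∂μ) * √(∫ x, ‖a n x‖ ^ 2 ∂α)))
      + 2 * (C * (√(∫ x, ‖a n x‖ ^ 2 ∂μ) * ∫ x, ‖a n x‖ ^ 2 ∂α)) := by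
    have j1 : Integrable (fun p : Tor × Tor => ‖a n p.1‖ ^ 2 * ‖a n p.2‖ ^ 2) J :=
      integrable_of_bound ((hma1.pow_const 2).mul (hma2.pow_const 2)) (A := 16)
        fun p => by
          rw [Real.norm_eq_abs, abs_of_nonneg (by positivity)]
          nlinarith [hb4 p.1, hb4 p.2, sq_nonneg ‖a n p.1‖, sq_nonneg ‖a n p.2‖]
    have j2 : Integrable (fun p : Tor × Tor => ‖a n p.1‖ ^ 2 * ‖a n p.2‖) J :=
      integrable_of_bound ((hma1.pow_const 2).mul hma2) (A := 8)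
        fun p => by
          rw [Real.norm_eq_abs, abs_of_nonneg (by positivity)]
          nlinarith [hb4 p.1, sq_nonneg ‖a n p.1‖, norm_a_le n p.2, norm_nonneg (a n p.2)]
    have j3 : Integrable (fun p : Tor × Tor => ‖a n p.1‖ * ‖a n p.2‖ ^ 2) J :=
      integrable_of_bound (hma1.mul (hma2.pow_const 2)) (A := 8)
        fun p => by
          rw [Real.norm_eq_abs, abs_of_nonneg (by positivity)]
          nlinarith [hb4 p.2, sq_nonneg ‖a n p.2‖, norm_a_le n p.1, norm_nonneg (a n p.1)]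
    calc |∫ p, (‖a n (p.1 + p.2)‖ ^ 2 - ‖a n p.1‖ ^ 2 - ‖a n p.2‖ ^ 2
          - 2 * (a n p.1 * star (a n p.2)).re) ∂J|
        ≤ ∫ p, |‖a n (p.1 + p.2)‖ ^ 2 - ‖a n p.1‖ ^ 2 - ‖a n p.2‖ ^ 2
          - 2 * (a n p.1 * star (a n p.2)).re| ∂J := abs_integral_le_integral_abs
      _ ≤ ∫ p, (‖a n p.1‖ ^ 2 * ‖a n p.2‖ ^ 2 + 2 * (‖a n p.1‖ ^ 2 * ‖a n p.2‖)
            + 2 * (‖a n p.1‖ * ‖a n p.2‖ ^ 2)) ∂J := by
          refine integral_mono_of_nonneg (Eventually.of_forall fun p => abs_nonneg _)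
            ((j1.add (j2.const_mul 2)).add (j3.const_mul 2))
            (Eventually.of_forall fun p => ?_)
          have := expand (a n p.1) (a n p.2)
          rw [← a_add] at this
          exact this
      _ = (∫ p, ‖a n p.1‖ ^ 2 * ‖a n p.2‖ ^ 2 ∂J)
            + 2 * (∫ p, ‖a n p.1‖ ^ 2 * ‖a n p.2‖ ∂J)
            + 2 * ∫ p, ‖a n p.1‖ * ‖a n p.2‖ ^ 2 ∂J := by
          have a1 : ∫ p, (‖a n p.1‖ ^ 2 * ‖a n p.2‖ ^ 2 + 2 * (‖a n p.1‖ ^ 2 * ‖a n p.2‖)
              + 2 * (‖a n p.1‖ * ‖a n p.2‖ ^ 2)) ∂J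
              = (∫ p, (‖a n p.1‖ ^ 2 * ‖a n p.2‖ ^ 2 + 2 * (‖a n p.1‖ ^ 2 * ‖a n p.2‖)) ∂J)
                + ∫ p, 2 * (‖a n p.1‖ * ‖a n p.2‖ ^ 2) ∂J :=
            integral_add (j1.add (j2.const_mul 2)) (j3.const_mul 2)
          have a2 : ∫ p, (‖a n p.1‖ ^ 2 * ‖a n p.2‖ ^ 2 + 2 * (‖a n p.1‖ ^ 2 * ‖a n p.2‖)) ∂J
              = (∫ p, ‖a n p.1‖ ^ 2 * ‖a n p.2‖ ^ 2 ∂J)
                + ∫ p, 2 * (‖a n p.1‖ ^ 2 * ‖a n p.2‖) ∂J :=
            integral_add j1 (j2.const_mul 2)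
          rw [a1, a2, integral_const_mul, integral_const_mul]
      _ ≤ _ := by
          have m1 := bound_prod (μ := μ) (α := α) hG hG0 hGC (f := fun x => ‖a n x‖ ^ 2)
            (g := fun x => ‖a n x‖ ^ 2) (A := 4) (hma.pow_const 2) (hma.pow_const 2)
            (fun x => sq_nonneg _) (fun x => sq_nonneg _) hb4 hb4
          have m2 := bound_prod (μ := μ) (α := α) hG hG0 hGC (f := fun x => ‖a n x‖ ^ 2)
            (g := fun x => ‖a n x‖) (A := 4) (hma.pow_const 2) hma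
            (fun x => sq_nonneg _) (fun x => norm_nonneg _) hb4 hb4'
          have m3 := bound_prod (μ := μ) (α := α) hG hG0 hGC (f := fun x => ‖a n x‖)
            (g := fun x => ‖a n x‖ ^ 2) (A := 4) hma (hma.pow_const 2)
            (fun x => norm_nonneg _) (fun x => sq_nonneg _) hb4' hb4
          rw [hJint, hJint, hJint]
          have hE0 : 0 ≤ ∫ x, ‖a n x‖ ^ 2 ∂μ := integral_nonneg fun x => sq_nonneg _
          have hD0 : 0 ≤ ∫ x, ‖a n x‖ ^ 2 ∂α := integral_nonneg fun x => sq_nonneg _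
          have m2' : C * ((∫ x, ‖a n x‖ ^ 2 ∂μ) * ∫ x, ‖a n x‖ ∂α)
              ≤ C * ((∫ x, ‖a n x‖ ^ 2 ∂μ) * √(∫ x, ‖a n x‖ ^ 2 ∂α)) :=
            mul_le_mul_of_nonneg_left (mul_le_mul_of_nonneg_left (mean_le α n) hE0) hC0
          have m3' : C * ((∫ x, ‖a n x‖ ∂μ) * ∫ x, ‖a n x‖ ^ 2 ∂α)
              ≤ C * (√(∫ x, ‖a n x‖ ^ 2 ∂μ) * ∫ x, ‖a n x‖ ^ 2 ∂α) :=
            mul_le_mul_of_nonneg_left (mul_le_mul_of_nonneg_right (mean_le μ n) hD0) hC0
          linarith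
  rw [e3]
  calc _ ≤ |∫ p, (‖a n (p.1 + p.2)‖ ^ 2 - ‖a n p.1‖ ^ 2 - ‖a n p.2‖ ^ 2
          - 2 * (a n p.1 * star (a n p.2)).re) ∂J|
        + |2 * ∫ p, (a n p.1 * star (a n p.2)).re ∂J| := abs_add_le _ _
    _ ≤ _ := by
        rw [abs_mul, abs_of_pos (by norm_num : (0 : ℝ) < 2)]
        linarith

end Helper97.IP
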