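import Mathlib
import Pool.Agent.Helper97.IP.CrossL
import Pool.Agent.Helper75.IP.DefsL
import Pool.Agent.Helper26.IP2.Inv

/-!
# The energy of a component of a product
-/

set_option autoImplicit false
open MeasureTheory Filter Topology ProbabilityTheory Helper35.AG
open scoped ENNReal InnerProductSpace

namespace Helper97.IP

open Helper75.IP (cpl Good W cpl_prob cpl_inv)

theorem W_nonneg (n : ℤ) (μ : Measure Tor) : 0 ≤ W n μ := integral_nonneg fun x => sq_nonneg _

theorem W_eq (n : ℤ) (μ : Measure Tor) : W n μ = ∫ x, ‖a n x‖ ^ 2 ∂μ := rfl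

theorem W_dirac {ρ : Measure Tor} {c : ℝ≥0∞} (hle : ρ ≤ c • Measure.dirac (0 : Tor)) (n : ℤ) :
    W n ρ = 0 := by
  have h4 : ρ {(0 : Tor)}ᶜ = 0 := by
    have h5 := hle ({(0 : Tor)}ᶜ)
    rw [Measure.smul_apply] at h5
    have h6 : Measure.dirac (0 : Tor) {(0 : Tor)}ᶜ = 0 := by
      rw [Measure.dirac_apply' _ (measurableSet_singleton 0).compl]
      simp
    rw [h6, smul_zero] at h5
    exact le_antisymm h5 zero_le
  have h7 : ∀ᵐ w ∂ρ, ‖a n w‖ ^ 2 = 0 := by
    have : ∀ᵐ w ∂ρ, w ∈ ({0} : Set Tor) := h4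
    filter_upwards [this] with w hw
    rw [Set.mem_singleton_iff.1 hw, a_zero]
    simp
  rw [W_eq, integral_congr_ae h7, integral_zero]

theorem sum_nonneg' (S : List (Measure Tor)) (n : ℤ) : 0 ≤ (S.map (W n)).sum := by
  refine List.sum_nonneg fun x hx => ?_
  obtain ⟨μ, -, rfl⟩ := List.mem_map.1 hx
  exact W_nonneg n μ

theorem le_sum' {S : List (Measure Tor)} {μ : Measure Tor} (h : μ ∈ S) (n : ℤ) :
    W n μ ≤ (S.map (W n)).sum := by
  refine List.single_le_sum (fun x hx => ?_) _ (List.mem_map_of_mem h)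
  obtain ⟨ν, -, rfl⟩ := List.mem_map.1 hx
  exact W_nonneg n ν

theorem tendsto_sum' {S : List (Measure Tor)} {N : ℕ → ℤ}
    (h0 : ∀ μ ∈ S, Tendsto (fun k => W (N k) μ) atTop (𝓝 0)) :
    Tendsto (fun k => (S.map (W (N k))).sum) atTop (𝓝 0) := by
  induction S with
  | nil => simp
  | cons μ S ih =>
      have h1 := h0 μ List.mem_cons_self
      have h2 := ih fun ν hν => h0 ν (List.mem_cons_of_mem μ hν)
      have h3 := h1.add h2
      rw [add_zero] at h3
      refine h3.congr fun k => ?_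
      rw [List.map_cons, List.sum_cons]

theorem sum_le_length {S L : List (Measure Tor)} (hL : ∀ μ ∈ L, μ ∈ S) (n : ℤ) :
    (L.map (W n)).sum ≤ L.length * (S.map (W n)).sum := by
  induction L with
  | nil => simp
  | cons μ L ih =>
      have h1 := le_sum' (hL μ List.mem_cons_self) n
      have h2 := ih fun ν hν => hL ν (List.mem_cons_of_mem μ hν)
      rw [List.map_cons, List.sum_cons, List.length_cons]
      push_cast
      linarith

/-- **RL** the energy of a component of a product -/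
theorem rigid_list {S : List (Measure Tor)} (hS : ∀ μ ∈ S, Good μ) {N : ℕ → ℤ}
    (h0 : ∀ μ ∈ S, Tendsto (fun k => W (N k) μ) atTop (𝓝 0)) {L : List (Measure Tor)}
    (hL : ∀ μ ∈ L, μ ∈ S) {ρ : Measure Tor} [IsProbabilityMeasure ρ] (hρ : Inv ρ) {c : ℝ≥0∞}
    (hc : c ≠ ⊤) (hle : ρ ≤ c • cpl L) :
    ∃ η : ℕ → ℝ, Tendsto η atTop (𝓝 0) ∧
      ∀ k, |W (N k) ρ - (L.map (W (N k))).sum| ≤ η k * (S.map (W (N k))).sum := by
  suffices H : ∀ (L : List (Measure Tor)), (∀ μ ∈ L, μ ∈ S) → ∀ (ρ : Measure Tor) (c : ℝ≥0∞),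
      IsProbabilityMeasure ρ → Inv ρ → c ≠ ⊤ → ρ ≤ c • cpl L →
      ∃ η : ℕ → ℝ, Tendsto η atTop (𝓝 0) ∧
      ∀ k, |W (N k) ρ - (L.map (W (N k))).sum| ≤ η k * (S.map (W (N k))).sum from
    H L hL ρ c inferInstance hρ hc hle
  have hT0 := tendsto_sum' h0
  intro L
  induction L with
  | nil =>
      intro _ ρ c hp hi hc hle
      refine ⟨fun _ => 0, tendsto_const_nhds, fun k => ?_⟩
      rw [W_dirac (ρ := ρ) (c := c) hle]
      simp
  | cons μ L ih =>
      intro hL ρ c hp hi hc hle
      have hμS := hL μ List.mem_cons_self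
      have hLS : ∀ ν ∈ L, ν ∈ S := fun ν hν => hL ν (List.mem_cons_of_mem μ hν)
      have hμ := hS μ hμS
      have hLg : ∀ ν ∈ L, Good ν := fun ν hν => hS ν (hLS ν hν)
      haveI := hμ.prob
      haveI := cpl_prob hLg
      haveI := hp
      obtain ⟨J, hJp, hJ, hJs, hJ1, hJ2, hJ3⟩ :=
        Helper26.IP.split hμ.inv (cpl_inv hLg) hi hμ.ext hc (hle : ρ ≤ c • conv μ (cpl L))
      haveI := hJp
      haveI : IsProbabilityMeasure (J.map Prod.snd) :=
        Measure.isProbabilityMeasure_map measurable_snd.aemeasurable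
      obtain ⟨η₁, hη₁, hb₁⟩ := ih hLS (J.map Prod.snd) c inferInstance hJ2 hc hJ3
      obtain ⟨η₂, hη₂, hb₂⟩ := ih hLS (cpl L) 1 inferInstance (cpl_inv hLg) ENNReal.one_ne_top
        (by rw [one_smul])
      obtain ⟨C, G, hC1, hG, hG0, hGC, hJG⟩ := exists_density hc hJ
      have hC0 : 0 ≤ C := zero_le_one.trans hC1
      obtain ⟨θ, hθ0, hθ, hX⟩ := cross' (μ := μ) (α := cpl L) hμ.inv.two (N := N)
        (h0 μ hμS) hG hG0 hGC
      set T : ℕ → ℝ := fun k => (S.map (W (N k))).sum with hT
      set M : ℕ → ℝ := fun k => L.length + |η₂ k| with hM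
      have hTn : ∀ k, 0 ≤ T k := fun k => sum_nonneg' S (N k)
      have hMn : ∀ k, 0 ≤ M k := fun k => by positivity
      have hE : ∀ k, W (N k) μ ≤ T k := fun k => le_sum' hμS (N k)
      have hD : ∀ k, W (N k) (cpl L) ≤ M k * T k := by
        intro k
        have h1 := hb₂ k
        have h2 := sum_le_length hLS (N k)
        rw [abs_le] at h1
        have h3 : η₂ k * T k ≤ |η₂ k| * T k :=
          mul_le_mul_of_nonneg_right (le_abs_self _) (hTn k)
        show W (N k) (cpl L) ≤ (L.length + |η₂ k|) * T k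
        have h4 : η₂ k * (S.map (W (N k))).sum = η₂ k * T k := rfl
        have h5 : (L.length : ℝ) * (S.map (W (N k))).sum = L.length * T k := rfl
        rw [add_mul]
        linarith [h1.2]
      refine ⟨fun k => 2 * (θ k * √(M k)) + C * (M k * T k) + 2 * (C * √(M k * T k))
        + 2 * (C * (√(T k) * M k)) + η₁ k, ?_, fun k => ?_⟩
      · have hM0 : Tendsto M atTop (𝓝 (L.length + |0|)) := tendsto_const_nhds.add hη₂.abs
        rw [abs_zero, add_zero] at hM0
        have hsM := (Real.continuous_sqrt.tendsto _).comp hM0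
        have hMT := hM0.mul hT0
        rw [mul_zero] at hMT
        have hsMT := (Real.continuous_sqrt.tendsto _).comp hMT
        rw [Real.sqrt_zero] at hsMT
        have hsT := (Real.continuous_sqrt.tendsto _).comp hT0
        rw [Real.sqrt_zero] at hsT
        have h1 : Tendsto (fun k => 2 * (θ k * √(M k)) + C * (M k * T k)
            + 2 * (C * √(M k * T k)) + 2 * (C * (√(T k) * M k)) + η₁ k) atTop
            (𝓝 (2 * (0 * √(L.length)) + C * 0 + 2 * (C * 0) + 2 * (C * (0 * L.length)) + 0)) :=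
          (((((hθ.mul hsM).const_mul 2).add (hMT.const_mul C)).add
            ((hsMT.const_mul C).const_mul 2)).add
            (((hsT.mul hM0).const_mul C).const_mul 2)).add hη₁
        have e : 2 * (0 * √(L.length : ℝ)) + C * 0 + 2 * (C * 0) + 2 * (C * (0 * (L.length : ℝ)))
            + 0 = 0 := by ring
        rw [e] at h1
        exact h1
      · have hk := key hG hG0 hGC hJG hJs hJ1 (N k)
        have hXk := hX k
        have hE0 : 0 ≤ W (N k) μ := W_nonneg _ _
        have hD0 : 0 ≤ W (N k) (cpl L) := W_nonneg _ _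
        rw [← W_eq, ← W_eq, ← W_eq, ← W_eq] at hk
        rw [← W_eq, ← W_eq] at hXk
        have b1 := hb₁ k
        have s1 : √(W (N k) μ) ≤ √(T k) := Real.sqrt_le_sqrt (hE k)
        have s2 : √(W (N k) (cpl L)) ≤ √(M k * T k) := Real.sqrt_le_sqrt (hD k)
        have s3 : √(T k) * √(M k * T k) = √(M k) * T k := by
          rw [Real.sqrt_mul (hMn k), mul_comm (√(M k)), ← mul_assoc, Real.mul_self_sqrt (hTn k),
            mul_comm]
        have c1 : θ k * (√(W (N k) μ) * √(W (N k) (cpl L))) ≤ θ k * √(M k) * T k := by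
          rw [mul_assoc, ← s3]
          exact mul_le_mul_of_nonneg_left (mul_le_mul s1 s2 (Real.sqrt_nonneg _)
            (Real.sqrt_nonneg _)) (hθ0 k)
        have c2 : W (N k) μ * W (N k) (cpl L) ≤ T k * (M k * T k) :=
          mul_le_mul (hE k) (hD k) hD0 (hTn k)
        have c3 : W (N k) μ * √(W (N k) (cpl L)) ≤ T k * √(M k * T k) :=
          mul_le_mul (hE k) s2 (Real.sqrt_nonneg _) (hTn k)
        have c4 : √(W (N k) μ) * W (N k) (cpl L) ≤ √(T k) * (M k * T k) :=
          mul_le_mul s1 (hD k) hD0 (Real.sqrt_nonneg _)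
        have d2 := mul_le_mul_of_nonneg_left c2 hC0
        have d3 := mul_le_mul_of_nonneg_left c3 hC0
        have d4 := mul_le_mul_of_nonneg_left c4 hC0
        rw [List.map_cons, List.sum_cons]
        have e1 : W (N k) ρ - (W (N k) μ + (L.map (W (N k))).sum)
            = (W (N k) ρ - W (N k) μ - W (N k) (J.map Prod.snd))
              + (W (N k) (J.map Prod.snd) - (L.map (W (N k))).sum) := by ring
        rw [e1]
        refine (abs_add_le _ _).trans ?_
        have e2 : (2 * (θ k * √(M k)) + C * (M k * T k) + 2 * (C * √(M k * T k))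
            + 2 * (C * (√(T k) * M k)) + η₁ k) * T k
            = 2 * (θ k * √(M k) * T k) + C * (T k * (M k * T k)) + 2 * (C * (T k * √(M k * T k)))
              + 2 * (C * (√(T k) * (M k * T k))) + η₁ k * T k := by ring
        have e3 : η₁ k * (S.map (W (N k))).sum = η₁ k * T k := rfl
        show _ ≤ (2 * (θ k * √(M k)) + C * (M k * T k) + 2 * (C * √(M k * T k))
            + 2 * (C * (√(T k) * M k)) + η₁ k) * T k
        rw [e2]
        linarith

end Helper97.IP
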